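import Pool.Agent.P.MP_2a8a61_ag.H.Fun

/-! Residue functionals of families of complete intersections and the transformation law. -/

set_option linter.unusedSectionVars false

namespace Pool.Agent.P.MP_2a8a61_ag.H

open MvPolynomial
open Matrix hiding map

variable {R : Type*} [CommRing R] {ι : Type*} [DecidableEq ι] [Fintype ι]

/-- The system deformed by free multiples of the pure powers. -/
noncomputable def defM (M : Matrix ι ι (MvPolynomial ι R)) (r : ℕ) :
    Matrix ι ι (MvPolynomial ι (MvPolynomial ι R)) :=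
  (map C).mapMatrix M + Matrix.diagonal fun i => C (X i) * X i ^ r

lemma defM_mulVec (M : Matrix ι ι (MvPolynomial ι R)) (r : ℕ) (i : ι) :
    (defM M r *ᵥ X) i = map C ((M *ᵥ X) i) + C (X i) * X i ^ (r + 1) := by
  rw [defM, add_mulVec, Pi.add_apply, map_mulVec_X, mulVec_diagonal, pow_succ, mul_assoc]

lemma defM_isHomogeneous {M : Matrix ι ι (MvPolynomial ι R)} {r : ℕ}
    (hM : ∀ i j, (M i j).IsHomogeneous r) (i j : ι) : (defM M r i j).IsHomogeneous r := by
  refine IsHomogeneous.add ((hM i j).map _) ?_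
  rw [diagonal_apply]
  split_ifs
  · exact (isHomogeneous_X_pow i r).C_mul _
  · exact isHomogeneous_zero _ _ _

lemma map_defM (M : Matrix ι ι (MvPolynomial ι R)) (r : ℕ) :
    (map (constantCoeff : MvPolynomial ι R →+* R)).mapMatrix (defM M r) = M := by
  ext1 i j
  have : (constantCoeff : MvPolynomial ι R →+* R).comp C = RingHom.id R := by
    ext r; simp
  by_cases h : i = j
  · subst h
    simp [defM, MvPolynomial.map_map, this, MvPolynomial.map_id]
  · simp [defM, MvPolynomial.map_map, this, MvPolynomial.map_id, h]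

/-- Translation of a variable. -/
noncomputable def etaG (S : Type*) [CommRing S] (k : ι) :
    MvPolynomial ι S →+* Polynomial (MvPolynomial ι S) :=
  eval₂Hom (Polynomial.C.comp C)
    fun j => Polynomial.C (X j) + if j = k then Polynomial.X else 0

/-- Translation of a deformation parameter. -/
noncomputable def thetaG (R : Type*) [CommRing R] (i : ι) :
    MvPolynomial ι (MvPolynomial ι R) →+* Polynomial (MvPolynomial ι (MvPolynomial ι R)) :=
  eval₂Hom (eval₂Hom (Polynomial.C.comp (C.comp C))
    fun l => Polynomial.C (C (X l)) + if l = i then Polynomial.X else 0)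
    fun j => Polynomial.C (X j)

lemma thetaG_map_C (i : ι) (p : MvPolynomial ι R) :
    thetaG R i (map C p) = Polynomial.C (map C p) := by
  have : (thetaG R i).comp (map C) = Polynomial.C.comp (map C) := by
    refine MvPolynomial.ringHom_ext (fun r => ?_) fun j => ?_ <;> simp [thetaG]
  exact congrArg (fun φ => φ p) this

/-- The shift data of the deformed system. -/
noncomputable def shiftG (M : Matrix ι ι (MvPolynomial ι R)) (r : ℕ) :
    ShiftData (X : ι → MvPolynomial ι (MvPolynomial ι R)) fun i => (defM M r *ᵥ X) i where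
  α i := X i ^ (r + 1)
  η := etaG _
  θ := thetaG R
  η0 k q := by
    have : Polynomial.constantCoeff.comp (etaG (MvPolynomial ι R) k) = RingHom.id _ := by
      refine MvPolynomial.ringHom_ext (fun r => ?_) fun j => ?_
      · simp [etaG]
      · by_cases h : j = k <;> simp [etaG, h]
    exact congrArg (fun φ => φ q) this
  θ0 i q := by
    have : Polynomial.constantCoeff.comp (thetaG R i) = RingHom.id _ := by
      refine MvPolynomial.ringHom_ext' (MvPolynomial.ringHom_ext (fun r => ?_) fun m => ?_)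
        fun j => ?_
      · simp [thetaG]
      · by_cases h : m = i <;> simp [thetaG, h]
      · simp [thetaG]
    exact congrArg (fun φ => φ q) this
  ηne k j h := by simp [etaG, h]
  ηeq k := by simp [etaG]
  θz i j := by simp [thetaG]
  θne i j h := by
    simp only [defM_mulVec]
    rw [map_add, thetaG_map_C]
    simp [thetaG, h]
  θeq i := by
    simp only [defM_mulVec]
    rw [map_add, thetaG_map_C]
    simp only [thetaG, map_mul, map_pow, eval₂Hom_C, eval₂Hom_X', if_true, map_add]
    ring
  hα J i h := h.pow _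

theorem gen (χ : R →+* ℂ) (hχ : Function.Surjective χ) (M : Matrix ι ι (MvPolynomial ι R))
    {r : ℕ} (hM : ∀ i j, (M i j).IsHomogeneous r)
    (h0 : ∀ z : ι → ℂ, (∀ i, eval z (map χ ((M *ᵥ X) i)) = 0) → z = 0) :
    ∃ l : MvPolynomial ι R →ₗ[R] R, (∀ u ∈ MI M, l u = 0) ∧ χ (l M.det) = 1 := by
  set χ' : MvPolynomial ι R →+* ℂ := χ.comp constantCoeff with hχ'
  have hs : Function.Surjective χ' := fun c => by
    obtain ⟨x, hx⟩ := hχ c
    exact ⟨C x, by simp [hχ', hx]⟩
  obtain ⟨D, hD⟩ := deg_mem (K := (MI (defM M r)).map (map χ')) fun z hz => by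
    refine h0 z fun i => ?_
    have := hz _ (Ideal.mem_map_of_mem _ (mem_MI (defM M r) i))
    have e := map_mulVec_X (constantCoeff : MvPolynomial ι R →+* R) (defM M r) i
    rw [map_defM] at e
    rwa [hχ', ← MvPolynomial.map_map, ← e] at this
  obtain ⟨s, hs1, hs2⟩ := nak χ' ((MI (defM M r)).restrictScalars _) (D + 1)
    (fun w hw => comp_mem_MI (defM_isHomogeneous hM) hw _) fun u hu =>
      (Ideal.mem_map_iff_of_surjective _ (map_surjective _ hs)).1
        (hD _ (Nat.le_succ D) _ (hu.map _))
  obtain ⟨v, hv⟩ := exists_good (shiftG M r) (defM_isHomogeneous hM) (P := s) (N := D)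
    fun i => hs2 _ (isHomogeneous_X_pow i _)
  have h := hv.map constantCoeff
  rw [map_defM] at h
  exact ⟨_, fun u hu => h.kill hu, by rw [h.n3]; exact hs1⟩

theorem transf (χ : R →+* ℂ) (hχ : Function.Surjective χ) (M a : Matrix ι ι (MvPolynomial ι R))
    (k : ι) (b : ι → MvPolynomial ι R) (t : R) {r : ℕ}
    (hM : ∀ i j, ((a * M).updateRow k b i j).IsHomogeneous r)
    (hk : ((a * M) *ᵥ X) k = C t * (b ⬝ᵥ X))
    (h0 : ∀ z : ι → ℂ, (∀ i, eval z (map χ (((a * M).updateRow k b *ᵥ X) i)) = 0) → z = 0) :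
    ∃ l : MvPolynomial ι R →ₗ[R] R, (∀ u ∈ MI M, l u = 0) ∧
      ∃ s, χ s = 1 ∧ l M.det = t * s := by
  set B := (a * M).updateRow k b with hB
  obtain ⟨l, hl, hl1⟩ := gen χ hχ B hM h0
  have hne : ∀ i, i ≠ k → ((a * M) *ᵥ X) i = (B *ᵥ X) i := fun i hi => by
    simp only [hB, mulVec, updateRow_ne hi]
  have hBk : (B *ᵥ X) k = b ⬝ᵥ X := by simp only [hB, mulVec, updateRow_self]
  have hmem : ∀ i, ((a * M) *ᵥ X) i ∈ MI B := fun i => by
    by_cases hi : i = k
    · rw [hi, hk, ← hBk]
      exact Ideal.mul_mem_left _ _ (mem_MI B k)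
    · rw [hne i hi]
      exact mem_MI B i
  refine ⟨l ∘ₗ LinearMap.mulLeft R a.det, fun u hu => hl _ ?_, l B.det, hl1, ?_⟩
  · have : MI M ≤ Submodule.comap (LinearMap.mulLeft (MvPolynomial ι R) a.det) (MI B) := by
      rw [MI, Ideal.span_le]
      rintro _ ⟨i, rfl⟩
      have e1 : a.det • (M *ᵥ X) = a.adjugate *ᵥ ((a * M) *ᵥ X) := by
        rw [← Matrix.mulVec_mulVec X a M, Matrix.mulVec_mulVec _ a.adjugate a,
          Matrix.adjugate_mul, Matrix.smul_mulVec, Matrix.one_mulVec]
      have e2 : a.det * (M *ᵥ X) i = ∑ j, a.adjugate i j * ((a * M) *ᵥ X) j := congrFun e1 i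
      change a.det * (M *ᵥ X) i ∈ MI B
      rw [e2]
      exact Ideal.sum_mem _ fun j _ => Ideal.mul_mem_left _ _ (hmem j)
    exact this hu
  · have h0 : ((a * M) k - (C t : MvPolynomial ι R) • b) ⬝ᵥ X = 0 := by
      rw [sub_dotProduct, smul_dotProduct, smul_eq_mul, ← hk]
      exact sub_self _
    have h1 := det_syz B k ((a * M) k - (C t : MvPolynomial ι R) • b) h0
    have h2 : (B.updateRow k ((a * M) k - (C t : MvPolynomial ι R) • b)).det =
        (a * M).det - C t * B.det := by
      rw [sub_eq_add_neg, det_updateRow_add, ← neg_smul, det_updateRow_smul, hB, updateRow_idem,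
        updateRow_idem, updateRow_eq_self]
      ring
    have h3 : Ideal.span ((fun i => (B *ᵥ X) i) '' {i | i ≠ k}) ≤ MI B :=
      Ideal.span_mono (Set.image_subset_range _ _)
    have h4 := hl _ (h3 h1)
    rw [h2, map_sub, ← smul_eq_C_mul, map_smul, sub_eq_zero, det_mul] at h4
    exact h4

end Pool.Agent.P.MP_2a8a61_ag.H
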