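import Pool.Agent.P.MP_2a8a61_ag.H.Base
import Pool.Agent.P.MP_2a8a61_ag.H.Gen

/-! The order of the pole of the associated form along a one-parameter family. -/

set_option linter.unusedSectionVars false

namespace Pool.Agent.P.MP_2a8a61_ag.H

open MvPolynomial Topology
open Matrix hiding map
open Filter hiding map

variable {ι : Type} [DecidableEq ι] [Fintype ι]

/-- Evaluation of the parameter at zero. -/
noncomputable abbrev ev0 : Polynomial ℂ →+* ℂ := Polynomial.evalRingHom 0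

lemma ev0_surjective : Function.Surjective ev0 := fun c => ⟨Polynomial.C c, by simp⟩

lemma map_ev_map_C (t : ℂ) (p : MvPolynomial ι ℂ) :
    map (Polynomial.evalRingHom t) (map Polynomial.C p) = p := by
  have : (Polynomial.evalRingHom t).comp Polynomial.C = RingHom.id ℂ := by
    ext r; simp
  rw [MvPolynomial.map_map, this, MvPolynomial.map_id]

/-- The `k`-th power of the parameter lies in the gradient ideal of the family, locally at each
singular point of the special member. -/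
def Expo (F : MvPolynomial ι (Polynomial ℂ)) (k : ℕ) : Prop :=
  ∀ a : ι → ℂ, a ≠ 0 → (∀ j, eval a (pderiv j (map ev0 F)) = 0) →
    ∃ u, eval a (map ev0 u) ≠ 0 ∧ C (Polynomial.X ^ k) * u ∈ Jac F

variable {d : ℕ} {F : MvPolynomial ι (Polynomial ℂ)}

lemma Expo.glob (hF : F.IsHomogeneous d) {k : ℕ} (h : Expo F k) :
    ∃ D, ∀ e, D ≤ e → ∃ s : Polynomial ℂ, ev0 s = 1 ∧
      ∀ u : MvPolynomial ι (Polynomial ℂ), u.IsHomogeneous e →
        C (s * Polynomial.X ^ k) * u ∈ Jac F := by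
  let K : Ideal (MvPolynomial ι (Polynomial ℂ)) :=
    Submodule.comap (LinearMap.mulLeft _ (C (Polynomial.X ^ k))) (Jac F)
  have hK : ∀ q, q ∈ K ↔ C (Polynomial.X ^ k) * q ∈ Jac F := fun q => Iff.rfl
  obtain ⟨D, hD⟩ := deg_mem (K := K.map (map ev0)) fun z hz => by
    by_contra hz0
    obtain ⟨u, hu, hu'⟩ := h z hz0 fun j => by
      rw [pderiv_map]
      exact hz _ (Ideal.mem_map_of_mem _
        ((hK _).2 (Ideal.mul_mem_left _ _ (Ideal.subset_span ⟨j, rfl⟩))))
    exact hu (hz _ (Ideal.mem_map_of_mem _ ((hK _).2 hu')))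
  refine ⟨D, fun e he => ?_⟩
  obtain ⟨s, hs, hs'⟩ := nak ev0 (K.restrictScalars _) e
    (fun w hw => (hK _).2 (by
      rw [← homogeneousComponent_C_mul]
      exact comp_mem_Jac' hF ((hK _).1 hw) e)) fun u hu =>
      (Ideal.mem_map_iff_of_surjective _ (map_surjective _ ev0_surjective)).1
        (hD e he _ (hu.map _))
  refine ⟨s, hs, fun u hu => ?_⟩
  rw [map_mul, mul_comm (C s), mul_assoc]
  exact (hK _).1 (hs' u hu)

lemma Expo.up (hd : 2 ≤ d) (hF : F.IsHomogeneous d) {k : ℕ} (h : Expo F k) (c : ι → ℂ) (k0 : ι)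
    (hc0 : c k0 ≠ 0) (hc : ∀ z : ι → ℂ, (∀ j, eval z (pderiv j (map ev0 F)) = 0) →
      ∑ j, c j * z j = 0 → z = 0) :
    ∃ l : MvPolynomial ι (Polynomial ℂ) →ₗ[Polynomial ℂ] Polynomial ℂ,
      (∀ u ∈ MI (HM F), l u = 0) ∧
      ∃ s, ev0 s = 1 ∧ l (HM F).det = Polynomial.X ^ k * s := by
  set L0 : MvPolynomial ι ℂ := ∑ j, C (c j) * X j with hL0
  have hL0h : L0.IsHomogeneous 1 :=
    IsHomogeneous.sum _ _ _ fun j _ => isHomogeneous_C_mul_X _ _
  have hL0e : ∀ z, eval z L0 = ∑ j, c j * z j := fun z => by simp [hL0]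
  set L : MvPolynomial ι (Polynomial ℂ) := map Polynomial.C L0 with hL
  have hF0 : (map ev0 F).IsHomogeneous d := hF.map _
  obtain ⟨D, hD⟩ := h.glob hF
  obtain ⟨D', hD'⟩ := deg_mem (K := Jac (map ev0 F) ⊔ Ideal.span {L0}) fun z hz =>
    hc z (fun j => hz _ (Ideal.mem_sup_left (Ideal.subset_span ⟨j, rfl⟩)))
      (hL0e z ▸ hz _ (Ideal.mem_sup_right (Ideal.mem_span_singleton_self _)))
  set e := D + D' with he
  obtain ⟨s, hs, hs'⟩ := hD (e + (d - 2 + 1)) (by omega)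
  have hrow : ∀ j : ι, ∃ a : ι → MvPolynomial ι ℂ, (∀ l, (a l).IsHomogeneous e) ∧
      ∀ z, eval z L0 = 0 → eval z (∑ l, a l * (HM (map ev0 F) *ᵥ X) l) =
        z j ^ (e + (d - 2) + 1) := fun j => by
    obtain ⟨γ, hγ, y, hy, e1⟩ := Submodule.mem_sup.1
      (hD' (e + (d - 2) + 1) (by omega) _ (isHomogeneous_X_pow j _))
    obtain ⟨q, rfl⟩ := Ideal.mem_span_singleton'.1 hy
    have e2 := congrArg (homogeneousComponent (e + (d - 2) + 1)) e1
    rw [map_add, comp_mul_of_isHomogeneous _ _ hL0h,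
      homogeneousComponent_eq_self (isHomogeneous_X_pow j _)] at e2
    have h1 := comp_mem_Jac' hF0 hγ (e + (d - 2 + 1))
    rw [← MI_HM hd hF0] at h1
    obtain ⟨a, ha, ha'⟩ := hom_repr (isHomogeneous_mulVec (HM_isHomogeneous hF0))
      (homogeneousComponent_isHomogeneous _ _) h1
    refine ⟨a, ha, fun z hz => ?_⟩
    have e3 := congrArg (eval z) e2
    rw [map_add, map_mul, hz, mul_zero, add_zero, map_pow, eval_X] at e3
    rw [← ha', ← e3]
    rfl
  choose a0 ha0 ha0' using hrow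
  have hLh : L.IsHomogeneous 1 := hL0h.map _
  have hLp : ∀ m, (L ^ m).IsHomogeneous m := fun m => by simpa using hLh.pow m
  have h1 := hs' _ (hLp _)
  rw [← MI_HM hd hF] at h1
  obtain ⟨a1, ha1, ha1'⟩ := hom_repr (isHomogeneous_mulVec (HM_isHomogeneous hF))
    ((hLp _).C_mul _) h1
  set a : Matrix ι ι (MvPolynomial ι (Polynomial ℂ)) :=
    Matrix.of fun j l => if j = k0 then a1 l else map Polynomial.C (a0 j l) with ha
  set b : ι → MvPolynomial ι (Polynomial ℂ) :=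
    fun j => C (Polynomial.C (c j)) * L ^ (e + (d - 2)) with hb
  have hbX : b ⬝ᵥ X = L ^ (e + (d - 2 + 1)) := by
    have hL' : L = ∑ j, C (Polynomial.C (c j)) * X j := by
      rw [hL, hL0, map_sum]
      exact Finset.sum_congr rfl fun j _ => by rw [map_mul, map_C, map_X]
    rw [← add_assoc, pow_succ, congrArg (fun x => L ^ (e + (d - 2)) * x) hL', Finset.mul_sum]
    exact Finset.sum_congr rfl fun j _ => by rw [hb]; ring
  have hmv : ∀ j, ((a * HM F) *ᵥ X) j = ∑ l, a j l * (HM F *ᵥ X) l := fun j => by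
    rw [← Matrix.mulVec_mulVec]
    rfl
  obtain ⟨l, hl, s', hs1, hs2⟩ := transf ev0 ev0_surjective (HM F) a k0 b
    (s * Polynomial.X ^ k) (r := e + (d - 2)) (fun i j => by
      rw [updateRow_apply]
      split_ifs
      · exact (hLp _).C_mul _
      · refine IsHomogeneous.sum _ _ _ fun l _ => IsHomogeneous.mul ?_ (HM_isHomogeneous hF l j)
        change (a i l).IsHomogeneous e
        rw [ha, of_apply]
        split_ifs
        exact (ha0 i l).map _)
    (by rw [hmv, hbX, ha1']; simp [ha]) fun z hz => by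
      have h2 : eval z L0 = 0 := by
        have := hz k0
        rw [mulVec, updateRow_self, hbX, map_pow, hL, map_ev_map_C, map_pow] at this
        exact eq_zero_of_pow_eq_zero this
      have h3 : ∀ j, j ≠ k0 → z j = 0 := fun j hj => by
        have := hz j
        rw [mulVec, updateRow_ne hj, ← mulVec, hmv, map_sum] at this
        simp only [ha, of_apply, if_neg hj, map_mul, map_ev_map_C, ← map_mulVec_X,
          mapMatrix_HM] at this
        exact eq_zero_of_pow_eq_zero ((ha0' j z h2).symm.trans this)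
      funext j
      by_cases hj : j = k0
      · rw [hL0e, Finset.sum_eq_single k0 (fun i _ hi => by rw [h3 i hi, mul_zero])
          (by simp)] at h2
        rw [hj]
        exact (mul_eq_zero.1 h2).resolve_left hc0
      · exact h3 j hj
  exact ⟨l, hl, s * s', by rw [map_mul, hs, hs1, one_mul], by rw [hs2]; ring⟩

lemma expo_of_dvd (hd : 2 ≤ d) (hF : F.IsHomogeneous d) {ρ k μ : ℕ} {δ1 : Polynomial ℂ}
    {n : (ι →₀ ℕ) → Polynomial ℂ} (hg : Good (HM F) ρ (Polynomial.X ^ μ * δ1) n)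
    (h1 : ev0 δ1 ≠ 0)
    (h : ∀ m : ι →₀ ℕ, m.degree = ρ → Polynomial.X ^ μ ∣ Polynomial.X ^ k * n m) :
    Expo F k := by
  have h2 : ∀ m : ι →₀ ℕ, ∃ e : Polynomial ℂ, m.degree = ρ →
      Polynomial.X ^ μ * e = Polynomial.X ^ k * n m := fun m => by
    by_cases hm : m.degree = ρ
    · obtain ⟨e, he⟩ := h m hm
      exact ⟨e, fun _ => he.symm⟩
    · exact ⟨0, fun h => absurd h hm⟩
  choose e he using h2
  have hX : (Polynomial.X ^ μ : Polynomial ℂ) ≠ 0 := pow_ne_zero _ Polynomial.X_ne_zero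
  have h3 := Nf_scale ρ he
  have h4 : Nf ρ e (HM F).det = Polynomial.X ^ k * δ1 :=
    mul_left_cancel₀ hX (by rw [h3, hg.n3]; ring)
  intro a ha _
  obtain ⟨i, hi⟩ := Function.ne_iff.1 ha
  have hi : a i ≠ 0 := hi
  have h5 := bez_Jac hd hF ρ e (fun u hu =>
    mul_left_cancel₀ hX (by rw [h3, hg.killJ hd hF hu, mul_zero, mul_zero])) i
  refine ⟨C δ1 * X i ^ (ρ + 1), ?_, by rwa [h4, map_mul, mul_assoc] at h5⟩
  rw [map_mul, map_C, map_pow, map_X, map_mul, eval_C, map_pow, eval_X]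
  exact mul_ne_zero h1 (pow_ne_zero _ hi)

lemma X_pow_dvd_of_bound (μ : ℕ) (δ1 : Polynomial ℂ) (B : ℝ) (p : Polynomial ℂ)
    (h : ∀ᶠ t in 𝓝[≠] (0 : ℂ), ‖p.eval t‖ ≤ B * ‖(Polynomial.X ^ μ * δ1).eval t‖) :
    Polynomial.X ^ μ ∣ p := by
  induction μ generalizing p with
  | zero => simp
  | succ μ ih =>
    have h1 : Tendsto (fun t => ‖p.eval t‖) (𝓝[≠] (0 : ℂ)) (𝓝 ‖p.eval 0‖) :=
      (p.continuous.norm.tendsto 0).mono_left nhdsWithin_le_nhds
    have h2 : Tendsto (fun t => B * ‖(Polynomial.X ^ (μ + 1) * δ1).eval t‖) (𝓝[≠] (0 : ℂ))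
        (𝓝 (B * ‖(Polynomial.X ^ (μ + 1) * δ1).eval 0‖)) :=
      (((Polynomial.X ^ (μ + 1) * δ1).continuous.norm.const_mul B).tendsto 0).mono_left
        nhdsWithin_le_nhds
    have h3 := le_of_tendsto_of_tendsto h1 h2 h
    have h4 : p.eval 0 = 0 := by simpa using h3
    obtain ⟨q, rfl⟩ : Polynomial.X ∣ p := by
      rwa [Polynomial.X_dvd_iff, Polynomial.coeff_zero_eq_eval_zero]
    rw [pow_succ']
    refine mul_dvd_mul_left _ (ih q ?_)
    filter_upwards [h, self_mem_nhdsWithin] with t ht ht0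
    have ht1 : 0 < ‖t‖ := norm_pos_iff.2 ht0
    rw [pow_succ', mul_assoc, Polynomial.eval_mul, Polynomial.eval_mul, Polynomial.eval_X,
      norm_mul, norm_mul, mul_left_comm] at ht
    exact le_of_mul_le_mul_left ht ht1

lemma lin_eval_psi {S : Type*} [CommRing S] [Algebra ℂ S] (L : S →ₗ[ℂ] ℂ) (ρ : ℕ)
    (p : (ι →₀ ℕ) → S) (w : ι → ℂ) :
    L (eval (fun i => algebraMap ℂ S (w i)) (psi ρ p)) = eval w (psi ρ fun m => L (p m)) := by
  rw [psi, psi, map_sum, map_sum, map_sum]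
  refine Finset.sum_congr rfl fun k _ => ?_
  rw [eval_monomial, eval_monomial, Finsupp.prod_fintype _ _ (by simp),
    Finsupp.prod_fintype _ _ (by simp)]
  have : (Nat.multinomial Finset.univ k : S) * p (Finsupp.equivFunOnFinite.symm k) *
      ∏ i, algebraMap ℂ S (w i) ^ (Finsupp.equivFunOnFinite.symm k) i =
      ((Nat.multinomial Finset.univ k : ℂ) * ∏ i, w i ^ (Finsupp.equivFunOnFinite.symm k) i) •
        p (Finsupp.equivFunOnFinite.symm k) := by
    rw [Algebra.smul_def, map_mul, map_natCast, map_prod]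
    simp only [map_pow]
    ring
  rw [this, map_smul, smul_eq_mul]
  ring

lemma dvd_of_forall_eval {ρ μ : ℕ} {p : (ι →₀ ℕ) → Polynomial ℂ}
    (h : ∀ w : ι → ℂ, Polynomial.X ^ μ ∣ eval (fun i => Polynomial.C (w i)) (psi ρ p))
    {m : ι →₀ ℕ} (hm : m.degree = ρ) : Polynomial.X ^ μ ∣ p m := by
  rw [Polynomial.X_pow_dvd_iff]
  intro j hj
  refine eq_zero_of_psi (v := fun m => Polynomial.lcoeff ℂ j (p m))
    (MvPolynomial.funext fun w => ?_) hm
  rw [← lin_eval_psi, map_zero]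
  exact Polynomial.X_pow_dvd_iff.1 (h w) j hj

lemma lin_pow_isHomogeneous {S : Type*} [CommRing S] (w : ι → S) (ρ : ℕ) :
    ((∑ i, C (w i) * X i) ^ ρ : MvPolynomial ι S).IsHomogeneous ρ := by
  simpa using (IsHomogeneous.sum Finset.univ (fun i => (C (w i) * X i : MvPolynomial ι S)) 1
    fun i _ => isHomogeneous_C_mul_X _ _).pow ρ

lemma eventually_eval_ne_zero {p : Polynomial ℂ} (hp : p ≠ 0) :
    ∀ᶠ t in 𝓝[≠] (0 : ℂ), p.eval t ≠ 0 :=
  nhdsNE_le_cofinite 0 (Polynomial.finite_setOfPred_isRoot hp).compl_mem_cofinite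

/-- The value of the associated form of a member of the family is the quotient of two
polynomials in the parameter. -/
lemma value_eq (hd : 2 ≤ d) (hF : F.IsHomogeneous d) {ρ : ℕ} {δ : Polynomial ℂ}
    {n : (ι →₀ ℕ) → Polynomial ℂ} (hg : Good (HM F) ρ δ n) (t : ℂ) (w : ι → ℂ) (c : ℂ)
    (hc : (∑ i, C (w i) * X i) ^ ρ - C c * (HM (map (Polynomial.evalRingHom t) F)).det ∈
      Jac (map (Polynomial.evalRingHom t) F)) :
    (eval (fun i => Polynomial.C (w i)) (psi ρ n)).eval t = c * δ.eval t := by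
  have h1 := hg.map (Polynomial.evalRingHom t)
  rw [mapMatrix_HM] at h1
  have h2 := h1.killJ hd (hF.map _) hc
  rw [map_sub, Nf_C_mul, h1.n3, sub_eq_zero, ← eval_psi, ← map_psi] at h2
  rw [← Polynomial.coe_evalRingHom, map_eval]
  have e : (Polynomial.evalRingHom t ∘ fun i => Polynomial.C (w i)) = w := by
    funext i
    simp
  rw [e]
  exact h2

/-- The `k`-th power of the parameter times the associated form stays bounded. -/
def Bdd (F : MvPolynomial ι (Polynomial ℂ)) (ρ k : ℕ) : Prop :=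
  ∀ w : ι → ℂ, ∃ B : ℝ, ∀ᶠ t in 𝓝[≠] (0 : ℂ), ∀ c : ℂ,
    (∑ i, C (w i) * X i) ^ ρ - C c * (HM (map (Polynomial.evalRingHom t) F)).det ∈
      Jac (map (Polynomial.evalRingHom t) F) → ‖t ^ k * c‖ ≤ B

theorem bdd_of_expo (hd : 2 ≤ d) (hF : F.IsHomogeneous d) {ρ k : ℕ} {δ : Polynomial ℂ}
    {n : (ι →₀ ℕ) → Polynomial ℂ} (hg : Good (HM F) ρ δ n) (hδ : δ ≠ 0) (h : Expo F k)
    (c : ι → ℂ) (k0 : ι) (hc0 : c k0 ≠ 0)
    (hc : ∀ z : ι → ℂ, (∀ j, eval z (pderiv j (map ev0 F)) = 0) → ∑ j, c j * z j = 0 → z = 0) :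
    Bdd F ρ k := by
  obtain ⟨l, hl, s, hs, hs'⟩ := h.up hd hF c k0 hc0 hc
  intro w
  have h1 := hl _ (sub_mem_of_n1 hg.n1 (lin_pow_isHomogeneous (fun i => Polynomial.C (w i)) ρ))
  rw [map_sub, ← smul_eq_C_mul, ← smul_eq_C_mul, map_smul, map_smul, hs', ← eval_psi,
    sub_eq_zero, smul_eq_mul, smul_eq_mul] at h1
  generalize l ((∑ i, C (Polynomial.C (w i)) * X i) ^ ρ) = q at h1
  have hs0 : s.eval 0 ≠ 0 := by
    have : s.eval 0 = 1 := hs
    rw [this]; exact one_ne_zero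
  have h2 : Tendsto (fun t => ‖q.eval t / s.eval t‖) (𝓝[≠] (0 : ℂ))
      (𝓝 ‖q.eval 0 / s.eval 0‖) :=
    ((q.continuous.continuousAt.div s.continuous.continuousAt hs0).norm.tendsto).mono_left
      nhdsWithin_le_nhds
  refine ⟨‖q.eval 0 / s.eval 0‖ + 1, ?_⟩
  filter_upwards [h2.eventually (ge_mem_nhds (lt_add_one _)), eventually_eval_ne_zero hδ,
    eventually_eval_ne_zero (p := s) fun h0 => hs0 (by rw [h0, Polynomial.eval_zero])]
    with t h3 h4 h5 c hc
  have h6 := congrArg (Polynomial.eval t) h1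
  rw [Polynomial.eval_mul, Polynomial.eval_mul, value_eq hd hF hg t w c hc, Polynomial.eval_mul,
    Polynomial.eval_pow, Polynomial.eval_X] at h6
  have h7 : t ^ k * c = q.eval t / s.eval t := by
    rw [eq_div_iff h5]
    refine mul_left_cancel₀ h4 ?_
    linear_combination -h6
  rw [h7]
  exact h3

theorem expo_of_bdd (hd : 2 ≤ d) (hF : F.IsHomogeneous d) {ρ k : ℕ} {δ : Polynomial ℂ}
    {n : (ι →₀ ℕ) → Polynomial ℂ} (hg : Good (HM F) ρ δ n) (hδ : δ ≠ 0) (h : Bdd F ρ k) :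
    Expo F k := by
  obtain ⟨δ1, e1, h1⟩ := Polynomial.exists_eq_pow_rootMultiplicity_mul_and_not_dvd δ hδ 0
  rw [map_zero, sub_zero] at e1 h1
  generalize δ.rootMultiplicity 0 = μ at e1
  have h2 : ev0 δ1 ≠ 0 := by
    rwa [Polynomial.X_dvd_iff, Polynomial.coeff_zero_eq_eval_zero] at h1
  refine expo_of_dvd hd hF (e1 ▸ hg) h2 fun m hm =>
    dvd_of_forall_eval (p := fun m => Polynomial.X ^ k * n m) (fun w => ?_) hm
  obtain ⟨B, hB⟩ := h w
  refine X_pow_dvd_of_bound μ δ1 B _ ?_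
  filter_upwards [hB, eventually_eval_ne_zero hδ] with t h3 h4
  have h5 := Nf_scale ρ (v := fun m => Polynomial.X ^ k * n m) (v' := n) (a := 1)
    (b := Polynomial.X ^ k) (fun m _ => one_mul _)
    ((∑ i, C (Polynomial.C (w i)) * X i) ^ ρ)
  rw [one_mul, ← eval_psi, ← eval_psi] at h5
  set ψ := eval (fun i => Polynomial.C (w i)) (psi ρ n) with hψ
  have h6 := hg.map (Polynomial.evalRingHom t)
  rw [mapMatrix_HM] at h6
  have h7 := sub_mem_of_n1 h6.n1 (lin_pow_isHomogeneous w ρ)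
  rw [MI_HM hd (hF.map _), ← eval_psi, ← map_psi] at h7
  have h8 : eval w (map (Polynomial.evalRingHom t) (psi ρ n)) = ψ.eval t := by
    rw [hψ, ← Polynomial.coe_evalRingHom, map_eval]
    congr 2
    funext i
    simp
  have h9 := h3 (ψ.eval t / δ.eval t) (by
    refine (Ideal.unit_mul_mem_iff_mem _ ((Ne.isUnit h4).map C)).1 ?_
    rw [mul_sub, ← mul_assoc, ← map_mul, mul_div_cancel₀ _ h4, ← h8]
    exact h7)
  rw [h5, ← e1, Polynomial.eval_mul, Polynomial.eval_pow, Polynomial.eval_X]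
  rwa [← mul_div_assoc, norm_div, div_le_iff₀ (norm_pos_iff.2 h4)] at h9

end Pool.Agent.P.MP_2a8a61_ag.H
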