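import Pool.Agent.P.MP_2a8a61_ag.H.Ex

/-! The base locus of the contravariant. -/

set_option linter.unusedSectionVars false

namespace Pool.Agent.P.MP_2a8a61_ag.H

open MvPolynomial
open Matrix hiding map

variable {ι : Type} [DecidableEq ι] [Fintype ι]

lemma evAt_C (d : ℕ) (f : MvPolynomial ι ℂ) (c : ℂ) : evAt d f (C c) = c := by simp [evAt]

lemma nak_line {d e : ℕ} {f : MvPolynomial ι ℂ} (hf : f.IsHomogeneous d) (i : ι)
    (h : ∀ g : MvPolynomial ι ℂ, g.IsHomogeneous e → ∃ c : ℂ, g - C c * X i ^ e ∈ Jac f) :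
    ∃ s : Co ι d, evAt d f s = 1 ∧ ∀ H : MvPolynomial ι (Co ι d), H.IsHomogeneous e →
      ∃ P, C s * H - C P * X i ^ e ∈ Jac (UF ι d) := by
  obtain ⟨s, hs, hs'⟩ := nak (evAt d f) (Submodule.span (Co ι d) {X i ^ e} ⊔
      (Jac (UF ι d)).restrictScalars (Co ι d)) e (fun w hw => by
      obtain ⟨x, hx, γ, hγ, rfl⟩ := Submodule.mem_sup.1 hw
      obtain ⟨P, rfl⟩ := Submodule.mem_span_singleton.1 hx
      rw [map_add, map_smul, homogeneousComponent_eq_self (isHomogeneous_X_pow i e)]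
      exact Submodule.add_mem_sup hx (comp_mem_Jac hγ e)) fun u hu => by
      obtain ⟨c, hc⟩ := h _ (hu.map (evAt d f))
      rw [← map_evAt_UF hf, ← map_Jac, map_evAt_UF hf] at hc
      obtain ⟨γ, hγ, hγ'⟩ := (Ideal.mem_map_iff_of_surjective _
        (map_surjective _ fun c => ⟨C c, evAt_C d f c⟩)).1 hc
      refine ⟨(C c : Co ι d) • X i ^ e + γ, Submodule.add_mem_sup
        (Submodule.smul_mem _ _ (Submodule.mem_span_singleton_self _)) hγ, ?_⟩
      rw [map_add, hγ', smul_eq_C_mul, map_mul, map_C, evAt_C, map_pow, map_X]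
      ring
  refine ⟨s, hs, fun H hH => ?_⟩
  obtain ⟨x, hx, γ, hγ, e1⟩ := Submodule.mem_sup.1 (hs' H hH)
  obtain ⟨P, rfl⟩ := Submodule.mem_span_singleton.1 hx
  refine ⟨P, ?_⟩
  rw [← e1, smul_eq_C_mul, add_sub_cancel_left]
  exact hγ

lemma Node.crit {d : ℕ} (hd : 2 ≤ d) {f : MvPolynomial ι ℂ} (hf : f.IsHomogeneous d)
    {a : ι → ℂ} (h : Node f a) {i : ι} (hi : a i ≠ 0) :
    ∃ s : Co ι d, evAt d f s = 1 ∧ ∀ H : MvPolynomial ι (Co ι d),
      H.IsHomogeneous (Fintype.card ι * (d - 2)) →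
      ∃ P, C s * H - C P * X i ^ (Fintype.card ι * (d - 2)) ∈ Jac (UF ι d) := by
  set ρ := Fintype.card ι * (d - 2) with hρ
  refine nak_line hf i fun g hg => ?_
  obtain ⟨D, hD⟩ := h.high hf hi
  obtain ⟨s, hs, hs'⟩ := nak_line hf i (hD (D + ρ) (Nat.le_add_right _ _))
  have hH : (map (C : ℂ →+* Co ι d) g).IsHomogeneous ρ := hg.map _
  obtain ⟨P, hP⟩ := hs' _ ((isHomogeneous_X_pow i D).mul hH)
  have : IsDomain (Loc d i) := Localization.Away.isDomain (X_ne_zero i)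
  obtain ⟨Q, hQ⟩ := exists_sub_mul_hess_mem hd (C s * map C g - C P * X i ^ ρ)
    ((hH.C_mul _).sub ((isHomogeneous_X_pow i ρ).C_mul _))
    (inert_of_mul hd i (x := X i ^ D)
      (by rw [map_pow]; exact pow_ne_zero _ (tau_X_ne_zero d i i))
      (by convert hP using 1; ring))
  have h1 := map_mem_Jac (evAt d f) _ hQ
  rw [map_evAt_UF hf, map_sub, map_sub, map_mul, map_mul, map_mul, map_C, map_C, map_C, hs,
    map_evAt_map_C, map_det_HM, map_evAt_UF hf, map_pow, map_X, C_1, one_mul] at h1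
  refine ⟨evAt d f P, ?_⟩
  have := add_mem h1 (Ideal.mul_mem_left _ (C (evAt d f Q)) (hess_mem_Jac hd hf hi h.sing))
  rwa [sub_add_cancel] at this

variable {d : ℕ} {Δ : Co ι d} {v : (ι →₀ ℕ) → Co ι d}

lemma Good.killJ {S : Type*} [CommRing S] [Algebra ℂ S] (hd : 2 ≤ d) {F : MvPolynomial ι S}
    (hF : F.IsHomogeneous d) {ρ : ℕ} {P : S} {w : (ι →₀ ℕ) → S} (h : Good (HM F) ρ P w)
    {u : MvPolynomial ι S} (hu : u ∈ Jac F) : Nf ρ w u = 0 :=
  h.kill (MI_HM hd hF ▸ hu)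

lemma Node.ne_zero (hd : 2 ≤ d) (hΔ : Prime Δ)
    (hv : Good (HM (UF ι d)) (Fintype.card ι * (d - 2)) Δ v) {f : MvPolynomial ι ℂ}
    (hf : f.IsHomogeneous d) {a : ι → ℂ} (h : Node f a) {i : ι} (hi : a i ≠ 0) :
    evAt d f (Nf (Fintype.card ι * (d - 2)) v (X i ^ (Fintype.card ι * (d - 2)))) ≠ 0 := by
  obtain ⟨s, hs, hs'⟩ := h.crit hd hf hi
  obtain ⟨P, hP⟩ := hs' _ (hess_isHomogeneous d)
  set y := Nf (Fintype.card ι * (d - 2)) v (X i ^ (Fintype.card ι * (d - 2))) with hy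
  have h1 := hv.killJ hd (UF_isHomogeneous d) hP
  rw [map_sub, Nf_C_mul, Nf_C_mul, hv.n3, sub_eq_zero, ← hy] at h1
  have h2 : evAt d f P = 0 := by
    have h3 := map_mem_Jac (evAt d f) _ hP
    rw [map_evAt_UF hf] at h3
    have h4 := eval_eq_zero_of_mem_Jac h.sing h3
    rw [map_sub, map_mul, map_mul, map_C, map_C, map_det_HM, map_evAt_UF hf, map_pow, map_X,
      map_sub, map_mul, map_mul, eval_eq_zero_of_mem_Jac h.sing (hess_mem_Jac hd hf hi h.sing),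
      mul_zero, zero_sub, neg_eq_zero, eval_C, map_pow, eval_X] at h4
    exact (mul_eq_zero.1 h4).resolve_right (pow_ne_zero _ hi)
  intro h0
  have h5 : Δ ∣ P * y := ⟨s, by rw [← h1, mul_comm]⟩
  rcases hΔ.dvd_or_dvd h5 with ⟨P', rfl⟩ | ⟨R, hR⟩
  · have : s = P' * y := mul_left_cancel₀ hΔ.ne_zero (by rw [mul_comm, h1, mul_assoc])
    rw [this, map_mul, h0, mul_zero] at hs
    exact zero_ne_one hs
  · have : s = P * R := mul_left_cancel₀ hΔ.ne_zero (by rw [mul_comm, h1, hR]; ring)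
    rw [this, map_mul, h2, zero_mul] at hs
    exact zero_ne_one hs

lemma rel_univ [Nonempty ι] (hd : 3 ≤ d) (hΔ : Δ ≠ 0)
    (hv : Good (HM (UF ι d)) (Fintype.card ι * (d - 2)) Δ v) {H H' : MvPolynomial ι (Co ι d)}
    (hH : H.IsHomogeneous (Fintype.card ι * (d - 2)))
    (hH' : H'.IsHomogeneous (Fintype.card ι * (d - 2))) :
    C (Nf (Fintype.card ι * (d - 2)) v H) * H' - C (Nf (Fintype.card ι * (d - 2)) v H') * H ∈
      Jac (UF ι d) := by
  have hd2 : 2 ≤ d := by omega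
  obtain ⟨i⟩ := ‹Nonempty ι›
  obtain ⟨f, hf, h⟩ := exists_node hd i
  have hi : (Pi.single i 1 : ι → ℂ) i ≠ 0 := by simp
  obtain ⟨s, hs, hs'⟩ := h.crit hd2 hf hi
  obtain ⟨P, hP⟩ := hs' H hH
  obtain ⟨P', hP'⟩ := hs' H' hH'
  set ρ := Fintype.card ι * (d - 2) with hρ
  have h1 := hv.killJ hd2 (UF_isHomogeneous d) hP
  have h2 := hv.killJ hd2 (UF_isHomogeneous d) hP'
  rw [map_sub, Nf_C_mul, Nf_C_mul, sub_eq_zero] at h1 h2
  have h3 := congrArg (C : Co ι d → MvPolynomial ι (Co ι d)) h1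
  have h4 := congrArg (C : Co ι d → MvPolynomial ι (Co ι d)) h2
  rw [map_mul, map_mul] at h3 h4
  obtain ⟨Q, hQ⟩ := exists_sub_mul_hess_mem hd2 (C (Nf ρ v H) * H' - C (Nf ρ v H') * H)
    ((hH'.C_mul _).sub (hH.C_mul _))
    (inert_of_mul hd2 i (x := C (s * s))
      (tau_C_ne_zero hf hi h.sing (by rw [map_mul, hs, one_mul]; exact one_ne_zero)) (by
        have := sub_mem (Ideal.mul_mem_left _ (C P * C (Nf ρ v (X i ^ ρ))) hP')
          (Ideal.mul_mem_left _ (C P' * C (Nf ρ v (X i ^ ρ))) hP)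
        convert this using 1
        rw [map_mul]
        linear_combination (C s * H') * h3 - (C s * H) * h4))
  have h5 := hv.killJ hd2 (UF_isHomogeneous d) hQ
  rw [map_sub, map_sub, Nf_C_mul, Nf_C_mul, Nf_C_mul, hv.n3, mul_comm, sub_self, zero_sub,
    neg_eq_zero] at h5
  rwa [(mul_eq_zero.1 h5).resolve_right hΔ, map_zero, zero_mul, sub_zero] at hQ

lemma rel_at [Nonempty ι] (hd : 3 ≤ d) (hΔ : Δ ≠ 0)
    (hv : Good (HM (UF ι d)) (Fintype.card ι * (d - 2)) Δ v) {f : MvPolynomial ι ℂ}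
    (hf : f.IsHomogeneous d) (μ : MvPolynomial ι ℂ →ₗ[ℂ] ℂ) (hμ : ∀ u ∈ Jac f, μ u = 0)
    {H H' : MvPolynomial ι ℂ} (hH : H.IsHomogeneous (Fintype.card ι * (d - 2)))
    (hH' : H'.IsHomogeneous (Fintype.card ι * (d - 2))) :
    Nf (Fintype.card ι * (d - 2)) (fun m => evAt d f (v m)) H * μ H' =
      Nf (Fintype.card ι * (d - 2)) (fun m => evAt d f (v m)) H' * μ H := by
  have h1 := map_mem_Jac (evAt d f) _ (rel_univ hd hΔ hv (hH.map C) (hH'.map C))
  rw [map_evAt_UF hf, map_sub, map_mul, map_mul, map_C, map_C, ← Nf_map _ v (evAt d f),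
    ← Nf_map _ v (evAt d f), map_evAt_map_C, map_evAt_map_C] at h1
  have h2 := hμ _ h1
  rwa [map_sub, ← smul_eq_C_mul, ← smul_eq_C_mul, map_smul, map_smul, sub_eq_zero] at h2

/-- Evaluation as a linear map. -/
noncomputable def evL (a : ι → ℂ) : MvPolynomial ι ℂ →ₗ[ℂ] ℂ := (aeval a).toLinearMap

lemma evL_apply (a : ι → ℂ) (p : MvPolynomial ι ℂ) : evL a p = eval a p := rfl

/-- The derivative at `a` in the direction `w`. -/
noncomputable def dirL (a w : ι → ℂ) : MvPolynomial ι ℂ →ₗ[ℂ] ℂ :=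
  ∑ j, w j • evL a ∘ₗ (pderiv j : Derivation ℂ _ _).toLinearMap

lemma dirL_apply (a w : ι → ℂ) (p : MvPolynomial ι ℂ) :
    dirL a w p = ∑ j, w j * eval a (pderiv j p) := by
  simp [dirL, evL_apply]

lemma dirL_mul (a w : ι → ℂ) (p q : MvPolynomial ι ℂ) :
    dirL a w (p * q) = eval a p * dirL a w q + eval a q * dirL a w p := by
  simp only [dirL_apply, Derivation.leibniz, smul_eq_mul, map_add, map_mul, Finset.mul_sum,
    ← Finset.sum_add_distrib]
  exact Finset.sum_congr rfl fun j _ => by ring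

lemma dirL_X (a w : ι → ℂ) (j : ι) : dirL a w (X j) = w j := by
  simp [dirL_apply, pderiv_X, Pi.single_apply, apply_ite (eval a)]

theorem node_of_ne_zero [Nonempty ι] (hd : 3 ≤ d) (hΔ : Δ ≠ 0)
    (hv : Good (HM (UF ι d)) (Fintype.card ι * (d - 2)) Δ v) {f : MvPolynomial ι ℂ}
    (hf : f.IsHomogeneous d) {a : ι → ℂ} (ha0 : a ≠ 0) (ha : ∀ j, eval a (pderiv j f) = 0)
    (h : psi (Fintype.card ι * (d - 2)) (fun m => evAt d f (v m)) ≠ 0) : Node f a := by
  obtain ⟨i, hi⟩ := Function.ne_iff.1 ha0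
  have hi : a i ≠ 0 := hi
  obtain ⟨ρ, hρ⟩ : ∃ ρ, Fintype.card ι * (d - 2) = ρ + 1 :=
    Nat.exists_eq_succ_of_ne_zero (mul_ne_zero Fintype.card_ne_zero (by omega))
  obtain ⟨w, hw⟩ : ∃ w : ι → ℂ, eval w
      (psi (Fintype.card ι * (d - 2)) fun m => evAt d f (v m)) ≠ 0 := by
    by_contra hcon
    push Not at hcon
    exact h (MvPolynomial.funext fun w => by rw [hcon, map_zero])
  rw [eval_psi] at hw
  have hH : ((∑ i, C (w i) * X i) ^ (Fintype.card ι * (d - 2)) :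
      MvPolynomial ι ℂ).IsHomogeneous (Fintype.card ι * (d - 2)) := by
    simpa using (IsHomogeneous.sum Finset.univ (fun i => (C (w i) * X i : MvPolynomial ι ℂ)) 1
      fun i _ => isHomogeneous_C_mul_X _ _).pow (Fintype.card ι * (d - 2))
  generalize (∑ i, C (w i) * X i : MvPolynomial ι ℂ) ^ (Fintype.card ι * (d - 2)) = H at hw hH
  have hev : ∀ u ∈ Jac f, evL a u = 0 := fun u hu => eval_eq_zero_of_mem_Jac ha hu
  have hX : ∀ l j : ι, (X l ^ ρ * X j : MvPolynomial ι ℂ).IsHomogeneous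
      (Fintype.card ι * (d - 2)) := fun l j =>
    hρ ▸ (isHomogeneous_X_pow l ρ).mul (isHomogeneous_X ℂ j)
  have h0 : evL a H ≠ 0 := fun h0 => by
    have := rel_at hd hΔ hv hf _ hev hH (hX i i)
    rw [h0, mul_zero, evL_apply, map_mul, map_pow, eval_X] at this
    exact mul_ne_zero hw (mul_ne_zero (pow_ne_zero _ hi) hi) this
  have key : ∀ μ : MvPolynomial ι ℂ →ₗ[ℂ] ℂ, (∀ u ∈ Jac f, μ u = 0) → ∃ γ : ℂ, ∀ l j : ι,
      μ (X l ^ ρ * X j) = γ * (a l ^ ρ * a j) := fun μ hμ => by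
    refine ⟨μ H / evL a H, fun l j => ?_⟩
    have h1 := rel_at hd hΔ hv hf _ hev hH (hX l j)
    have h2 := rel_at hd hΔ hv hf _ hμ hH (hX l j)
    rw [evL_apply, map_mul, map_pow, eval_X, eval_X] at h1
    rw [div_mul_eq_mul_div, eq_div_iff h0]
    refine mul_left_cancel₀ hw ?_
    linear_combination (evL a H) * h2 - (μ H) * h1
  refine ⟨ha0, ha, fun b hb => ?_, fun u hu => ?_⟩
  · by_cases hb0 : b = 0
    · exact ⟨0, by rw [hb0, zero_smul]⟩
    obtain ⟨l, hl⟩ := Function.ne_iff.1 hb0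
    have hl : b l ≠ 0 := hl
    obtain ⟨γ, hγ⟩ := key (evL b) fun u hu => eval_eq_zero_of_mem_Jac hb hu
    refine ⟨γ * a l ^ ρ / b l ^ ρ, funext fun j => ?_⟩
    have := hγ l j
    rw [evL_apply, map_mul, map_pow, eval_X, eval_X] at this
    rw [Pi.smul_apply, smul_eq_mul, div_mul_eq_mul_div, eq_div_iff (pow_ne_zero _ hl)]
    linear_combination this
  · obtain ⟨γ, hγ⟩ := key (dirL a u) fun p hp => by
      obtain ⟨b, rfl⟩ := Ideal.mem_span_range_iff_exists_fun.1 hp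
      rw [map_sum]
      refine Finset.sum_eq_zero fun k _ => ?_
      have := congrFun hu k
      rw [← HA_symm] at this
      have e : dirL a u (pderiv k f) = 0 := by
        rw [dirL_apply, ← Pi.zero_apply (M := fun _ => ℂ) k, ← this]
        simp [HA, mulVec, dotProduct, mul_comm]
      rw [dirL_mul, e, ha, mul_zero, zero_mul, add_zero]
    refine ⟨(γ * a i ^ ρ - dirL a u (X i ^ ρ)) / a i ^ ρ, funext fun j => ?_⟩
    have := hγ i j
    rw [dirL_mul, dirL_X, map_pow, eval_X, eval_X] at this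
    rw [Pi.smul_apply, smul_eq_mul, div_mul_eq_mul_div, eq_div_iff (pow_ne_zero _ hi)]
    linear_combination this

theorem Node.psi_eq (hd : 3 ≤ d) (hΔ : Prime Δ)
    (hv : Good (HM (UF ι d)) (Fintype.card ι * (d - 2)) Δ v) {f : MvPolynomial ι ℂ}
    (hf : f.IsHomogeneous d) {a : ι → ℂ} (h : Node f a) :
    ∃ c : ℂ, c ≠ 0 ∧ psi (Fintype.card ι * (d - 2)) (fun m => evAt d f (v m)) =
      C c * (∑ i, C (a i) * X i) ^ (Fintype.card ι * (d - 2)) := by
  obtain ⟨i, hi⟩ := Function.ne_iff.1 h.ne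
  have hi : a i ≠ 0 := hi
  have : Nonempty ι := ⟨i⟩
  have h1 := h.ne_zero (by omega) hΔ hv hf hi
  rw [← Nf_map, map_pow, map_X] at h1
  refine ⟨_ / a i ^ (Fintype.card ι * (d - 2)), div_ne_zero h1 (pow_ne_zero _ hi),
    MvPolynomial.funext fun w => ?_⟩
  have hH : ((∑ i, C (w i) * X i) ^ (Fintype.card ι * (d - 2)) :
      MvPolynomial ι ℂ).IsHomogeneous (Fintype.card ι * (d - 2)) := by
    simpa using (IsHomogeneous.sum Finset.univ (fun i => (C (w i) * X i : MvPolynomial ι ℂ)) 1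
      fun i _ => isHomogeneous_C_mul_X _ _).pow (Fintype.card ι * (d - 2))
  have h2 := rel_at hd hΔ.ne_zero hv hf (evL a)
    (fun u hu => eval_eq_zero_of_mem_Jac h.sing hu) hH (isHomogeneous_X_pow i _)
  rw [eval_psi, map_mul, eval_C, div_mul_eq_mul_div, eq_div_iff (pow_ne_zero _ hi)]
  simp only [evL_apply, map_pow, map_sum, map_mul, eval_C, eval_X] at h2 ⊢
  simp only [mul_comm (w _)] at h2
  exact h2

theorem psi_ne_zero {ρ : ℕ} {U : Matrix ι ι (MvPolynomial ι ℂ)} {P : ℂ} {w : (ι →₀ ℕ) → ℂ}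
    (hv : Good U ρ P w) (hP : P ≠ 0) : psi ρ w ≠ 0 := fun h => by
  have := Nf_scale ρ (v := w) (v' := w) (a := 1) (b := 0)
    (fun m hm => by rw [eq_zero_of_psi h hm, mul_zero, mul_zero]) U.det
  rw [hv.n3, one_mul, zero_mul] at this
  exact hP this

end Pool.Agent.P.MP_2a8a61_ag.H
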