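import Pool.Agent.P.MP_2a8a61_ag.Exchange

/-! The Bezoutian lemma and the transformation of determinants under syzygies. -/

set_option linter.unusedSectionVars false

namespace Pool.Agent.P.MP_2a8a61_ag.H

open MvPolynomial
open Matrix hiding map

variable {R : Type*} [CommRing R] {ι : Type*} [DecidableEq ι] [Fintype ι]

/-- Extension of a functional to polynomials in a second set of variables. -/
noncomputable def Lam (l : MvPolynomial ι R →ₗ[R] R) :
    MvPolynomial ι (MvPolynomial ι R) →ₗ[MvPolynomial ι R] MvPolynomial ι R :=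
  (basisMonomials ι (MvPolynomial ι R)).constr (MvPolynomial ι R) fun m => C (l (monomial m 1))

lemma Lam_monomial (l : MvPolynomial ι R →ₗ[R] R) (m : ι →₀ ℕ) (c : MvPolynomial ι R) :
    Lam l (monomial m c) = c * C (l (monomial m 1)) := by
  have h : (monomial m c : MvPolynomial ι (MvPolynomial ι R)) =
      c • basisMonomials ι (MvPolynomial ι R) m := by
    rw [coe_basisMonomials, smul_monomial, smul_eq_mul, mul_one]
  rw [h, map_smul, Lam, Module.Basis.constr_basis, smul_eq_mul]

lemma lin_monomial (l : MvPolynomial ι R →ₗ[R] R) (m : ι →₀ ℕ) (c : R) :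
    l (monomial m c) = c * l (monomial m 1) := by
  rw [← smul_eq_mul, ← map_smul, smul_monomial, smul_eq_mul, mul_one]

lemma Lam_map_C (l : MvPolynomial ι R →ₗ[R] R) (q : MvPolynomial ι R) :
    Lam l (map C q) = C (l q) := by
  induction q using MvPolynomial.induction_on' with
  | monomial m c => rw [map_monomial, Lam_monomial, lin_monomial l m c, map_mul]
  | add p q hp hq => rw [map_add, map_add, hp, hq, map_add, map_add]

lemma Lam_C_mul (l : MvPolynomial ι R →ₗ[R] R) (c : MvPolynomial ι R)
    (p : MvPolynomial ι (MvPolynomial ι R)) : Lam l (C c * p) = c * Lam l p := by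
  rw [← smul_eq_C_mul, map_smul, smul_eq_mul]

lemma Lam_mul_map_C (l : MvPolynomial ι R →ₗ[R] R) {h : MvPolynomial ι R}
    (hl : ∀ q, l (q * h) = 0) (p : MvPolynomial ι (MvPolynomial ι R)) :
    Lam l (p * map C h) = 0 := by
  induction p using MvPolynomial.induction_on' with
  | monomial m c =>
    have e : (monomial m c : MvPolynomial ι (MvPolynomial ι R)) * map C h =
        C c * map C (monomial m 1 * h) := by
      rw [map_mul, map_monomial, map_one, ← mul_assoc, C_mul_monomial, mul_one]
    rw [e, Lam_C_mul, Lam_map_C, hl, map_zero, mul_zero]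
  | add p q hp hq => rw [add_mul, map_add, hp, hq, add_zero]

lemma constantCoeff_Lam (l : MvPolynomial ι R →ₗ[R] R) (p : MvPolynomial ι (MvPolynomial ι R)) :
    constantCoeff (Lam l p) = l (map constantCoeff p) := by
  induction p using MvPolynomial.induction_on' with
  | monomial m c =>
    rw [Lam_monomial, map_monomial, lin_monomial l m (constantCoeff c), map_mul, constantCoeff_C]
  | add p q hp hq => rw [map_add, map_add, hp, hq, map_add, map_add]

lemma exists_diag (h : MvPolynomial ι R) :
    ∃ E : ι → MvPolynomial ι (MvPolynomial ι R),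
      map C h - C h = ∑ j, E j * (X j - C (X j)) := by
  induction h using MvPolynomial.induction_on with
  | C c => exact ⟨0, by simp⟩
  | add p q hp hq =>
    obtain ⟨E, hE⟩ := hp
    obtain ⟨E', hE'⟩ := hq
    refine ⟨E + E', ?_⟩
    simp only [Pi.add_apply, add_mul, Finset.sum_add_distrib, ← hE, ← hE', map_add]
    ring
  | mul_X p i hp =>
    obtain ⟨E, hE⟩ := hp
    refine ⟨fun j => E j * X i + if j = i then C p else 0, ?_⟩
    simp only [add_mul, Finset.sum_add_distrib, ite_mul, zero_mul, Finset.sum_ite_eq',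
      Finset.mem_univ, if_true, map_mul, map_X]
    have : ∑ j, E j * X i * (X j - C (X j)) = (map C p - C p) * X i := by
      rw [hE, Finset.sum_mul]
      exact Finset.sum_congr rfl fun j _ => by ring
    rw [this]
    ring

/-- The Bezoutian lemma. -/
theorem bez (M : Matrix ι ι (MvPolynomial ι R)) (l : MvPolynomial ι R →ₗ[R] R)
    (hJ : ∀ i q, l (q * (M *ᵥ X) i) = 0) (ρ : ℕ)
    (hl : ∀ m : ι →₀ ℕ, ρ < m.degree → l (monomial m 1) = 0)
    (hom : ∀ i, ∃ e, ((M *ᵥ X) i).IsHomogeneous e) (α : ι →₀ ℕ) (hα : ρ < α.degree) :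
    C (l M.det) * monomial α 1 ∈ Ideal.span (Set.range fun i => (M *ᵥ X) i) := by
  set J := Ideal.span (Set.range fun i => (M *ᵥ X) i) with hJdef
  choose E hE using fun i l => exists_diag (M i l)
  set δ : Matrix ι ι (MvPolynomial ι (MvPolynomial ι R)) :=
    Matrix.of fun i j => map C (M i j) + ∑ k, C (X k) * E i k j with hδ
  set v : ι → MvPolynomial ι (MvPolynomial ι R) := fun j => X j - C (X j) with hv
  have h1 : ∀ i, (δ *ᵥ v) i = map C ((M *ᵥ X) i) - C ((M *ᵥ X) i) := by
    intro i
    have e1 : ∑ j, (∑ k, C (X k) * E i k j) * v j =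
        ∑ k, C (X k) * (map C (M i k) - C (M i k)) := by
      simp only [Finset.sum_mul]
      rw [Finset.sum_comm]
      refine Finset.sum_congr rfl fun k _ => ?_
      rw [hE, Finset.mul_sum]
      exact Finset.sum_congr rfl fun j _ => by rw [mul_assoc]
    simp only [mulVec, dotProduct, hδ, of_apply, add_mul]
    rw [Finset.sum_add_distrib, e1]
    simp only [map_sum, map_mul, map_X, ← Finset.sum_add_distrib, ← Finset.sum_sub_distrib]
    exact Finset.sum_congr rfl fun j _ => by simp only [hv]; ring
  have h2 : ∀ j p, Lam l (p * (δ.det * v j)) ∈ J := by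
    intro j p
    have e1 : δ.det • v = δ.adjugate *ᵥ (δ *ᵥ v) := by
      rw [Matrix.mulVec_mulVec, Matrix.adjugate_mul, Matrix.smul_mulVec, Matrix.one_mulVec]
    have e2 : δ.det * v j = ∑ i, δ.adjugate j i * (δ *ᵥ v) i := congrFun e1 j
    rw [e2, Finset.mul_sum, map_sum]
    refine Ideal.sum_mem _ fun i _ => ?_
    have e3 : p * (δ.adjugate j i * (δ *ᵥ v) i) =
        (p * δ.adjugate j i) * map C ((M *ᵥ X) i) - C ((M *ᵥ X) i) * (p * δ.adjugate j i) := by
      rw [h1]; ring
    rw [e3, map_sub, Lam_mul_map_C l (hJ i), Lam_C_mul, zero_sub]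
    exact neg_mem (Ideal.mul_mem_right _ _ (Ideal.subset_span ⟨i, rfl⟩))
  obtain ⟨G, hG⟩ := exists_diag (monomial α 1 : MvPolynomial ι R)
  have h3 : Lam l (δ.det * (map C (monomial α 1) - C (monomial α 1))) ∈ J := by
    rw [hG, Finset.mul_sum, map_sum]
    refine Ideal.sum_mem _ fun j _ => ?_
    rw [mul_left_comm]
    exact h2 j _
  have h4 : ∀ q : MvPolynomial ι R, l (q * monomial α 1) = 0 := by
    intro q
    induction q using MvPolynomial.induction_on' with
    | monomial m c =>
      rw [monomial_mul, lin_monomial, hl _ (by rw [map_add]; omega), mul_zero]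
    | add p q hp hq => rw [add_mul, map_add, hp, hq, add_zero]
  rw [mul_sub, map_sub, Lam_mul_map_C l h4, mul_comm δ.det, Lam_C_mul, zero_sub,
    neg_mem_iff, mul_comm] at h3
  have h5 := comp_mem_span (G := Set.range fun i => (M *ᵥ X) i)
    (by rintro _ ⟨i, rfl⟩; exact hom i) h3 (0 + α.degree)
  rw [comp_mul_of_isHomogeneous _ _ (isHomogeneous_monomial _ rfl), homogeneousComponent_zero,
    ← constantCoeff_eq, constantCoeff_Lam, RingHom.map_det] at h5
  have h6 : (map (constantCoeff : MvPolynomial ι R →+* R) :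
      MvPolynomial ι (MvPolynomial ι R) →+* MvPolynomial ι R).mapMatrix δ = M := by
    ext1 i j
    have : (constantCoeff : MvPolynomial ι R →+* R).comp C = RingHom.id R := by
      ext r; simp
    simp [hδ, MvPolynomial.map_map, this, MvPolynomial.map_id]
  rwa [h6] at h5

lemma syz (I : Ideal (MvPolynomial ι R)) (w : ι → MvPolynomial ι R)
    (hw : ∀ p q, X p * w q - X q * w p ∈ I) (b : ι → MvPolynomial ι R)
    (hb : ∑ j, b j * X j = 0) : ∑ j, b j * w j ∈ I := by
  classical
  let D : MvPolynomial ι R →ₗ[R] MvPolynomial ι R ⧸ I :=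
    (basisMonomials ι R).constr R fun m =>
      if h : ∃ k, m k ≠ 0 then
        Ideal.Quotient.mk I (monomial (m - Finsupp.single h.choose 1) 1 * w h.choose) else 0
  have hD : ∀ (m : ι →₀ ℕ) (j : ι),
      D (monomial (m + Finsupp.single j 1) 1) = Ideal.Quotient.mk I (monomial m 1 * w j) := by
    intro m j
    have hex : ∃ k, (m + Finsupp.single j 1 : ι →₀ ℕ) k ≠ 0 := ⟨j, by simp⟩
    have e1 : D (monomial (m + Finsupp.single j 1) 1) = Ideal.Quotient.mk I
        (monomial (m + Finsupp.single j 1 - Finsupp.single hex.choose 1) 1 * w hex.choose) := by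
      have : (monomial (m + Finsupp.single j 1) 1 : MvPolynomial ι R) =
          basisMonomials ι R (m + Finsupp.single j 1) := by rw [coe_basisMonomials]
      rw [this, Module.Basis.constr_basis, dif_pos hex]
    rw [e1]
    have hk := hex.choose_spec
    generalize hex.choose = k at hk
    by_cases hkj : k = j
    · subst hkj; rw [add_tsub_cancel_right]
    · have hmk : Finsupp.single k 1 ≤ m := by
        rw [Finsupp.single_le_iff]
        simp only [Finsupp.add_apply, Finsupp.single_eq_of_ne hkj] at hk
        omega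
      obtain ⟨m', rfl⟩ := exists_add_of_le hmk
      rw [Ideal.Quotient.eq]
      have e2 : Finsupp.single k 1 + m' + Finsupp.single j 1 - Finsupp.single k 1 =
          m' + Finsupp.single j 1 := by rw [add_assoc, add_tsub_cancel_left]
      have e3 : ∀ i, (monomial (m' + Finsupp.single i 1) 1 : MvPolynomial ι R) =
          monomial m' 1 * X i := fun i => by rw [X, monomial_mul, mul_one]
      rw [e2, add_comm (Finsupp.single k 1), e3, e3, mul_assoc, mul_assoc, ← mul_sub]
      exact Ideal.mul_mem_left _ _ (hw j k)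
  have hD' : ∀ (q : MvPolynomial ι R) (j : ι), D (q * X j) = Ideal.Quotient.mk I (q * w j) := by
    intro q j
    induction q using MvPolynomial.induction_on' with
    | monomial m c =>
      have e1 : (monomial m c : MvPolynomial ι R) = c • monomial m 1 := by
        rw [smul_monomial, smul_eq_mul, mul_one]
      rw [e1, smul_mul_assoc, smul_mul_assoc, map_smul, X, monomial_mul, mul_one, hD]
      rfl
    | add p q hp hq => rw [add_mul, map_add, hp, hq, add_mul, map_add]
  have := congrArg D hb
  rw [map_sum, map_zero] at this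
  simp only [hD'] at this
  rw [← map_sum] at this
  exact Ideal.Quotient.eq_zero_iff_mem.1 this

lemma det_updateRow_eq_sum {S : Type*} [CommRing S] (B : Matrix ι ι S) (k : ι) (b : ι → S) :
    (B.updateRow k b).det = ∑ j, b j * (B.updateRow k (Pi.single j 1)).det := by
  simp only [← Matrix.cramer_transpose_apply]
  conv_lhs => rw [pi_eq_sum_univ' b, map_sum, Finset.sum_apply]
  exact Finset.sum_congr rfl fun j _ => by rw [map_smul, Pi.smul_apply, smul_eq_mul]

lemma det_syz (B : Matrix ι ι (MvPolynomial ι R)) (k : ι) (b : ι → MvPolynomial ι R)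
    (hb : ∑ j, b j * X j = 0) :
    (B.updateRow k b).det ∈ Ideal.span ((fun i => (B *ᵥ X) i) '' {i | i ≠ k}) := by
  rw [det_updateRow_eq_sum]
  refine syz _ _ (fun p q => ?_) b hb
  have h := det_exchange (B.updateRow k (Pi.single q 1)) X (Pi.single p 1) k
  have e1 : (fun i => (B.updateRow k (Pi.single q 1) *ᵥ X) i) '' {i | i ≠ k} =
      (fun i => (B *ᵥ X) i) '' {i | i ≠ k} := by
    refine Set.image_congr fun i hi => ?_
    simp only [mulVec, updateRow_ne hi]
  have e2 : (B.updateRow k (Pi.single q 1) *ᵥ X) k = X q := by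
    simp [mulVec]
  rw [e1, e2, updateRow_idem, single_one_dotProduct, mul_comm, mul_comm _ (X q)] at h
  exact h

end Pool.Agent.P.MP_2a8a61_ag.H
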