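import Mathlib

/-! An element of a field extension of the complex numbers which is killed by all derivations is
a constant. -/

namespace Pool.Agent.P.MP_2a8a61_ag.H

open Polynomial TensorProduct

variable {Ω : Type} [Field Ω] [Algebra ℂ Ω]

theorem der_alg_trans {A B : Type} [CommRing A] [CommRing B] [Algebra A Ω] [Algebra B Ω]
    (f : A →+* B) (hf : Function.Injective f)
    (hc : ∀ x, algebraMap B Ω (f x) = algebraMap A Ω x) {z : Ω} (hz : IsAlgebraic A z) :
    IsAlgebraic B z := by
  obtain ⟨p, hp, hpz⟩ := hz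
  refine ⟨p.map f, (Polynomial.map_ne_zero_iff hf).2 hp, ?_⟩
  rw [aeval_def, eval₂_map]
  have : (algebraMap B Ω).comp f = algebraMap A Ω := RingHom.ext hc
  rw [this]
  exact hpz

theorem der_ext_aux {S : Type} [CommRing S] [Algebra ℂ S] [Algebra S Ω]
    [IsScalarTower ℂ S Ω] (hinj : Function.Injective (algebraMap S Ω))
    (halg : Algebra.IsAlgebraic S Ω) (d : Derivation ℂ S Ω) :
    ∃ D : Derivation ℂ Ω Ω, ∀ x, D (algebraMap S Ω x) = d x := by
  have : CharZero Ω := charZero_of_injective_algebraMap (algebraMap ℂ Ω).injective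
  have : IsDomain S := hinj.isDomain _
  have : FaithfulSMul S Ω := (faithfulSMul_iff_algebraMap_injective S Ω).2 hinj
  let : Algebra (FractionRing S) Ω := FractionRing.liftAlgebra S Ω
  have : IsScalarTower S (FractionRing S) Ω := FractionRing.isScalarTower_liftAlgebra S Ω
  have : Algebra.IsAlgebraic (FractionRing S) Ω :=
    Algebra.IsAlgebraic.extendScalars (R := S) (IsFractionRing.injective S (FractionRing S))
  have : CharZero (FractionRing S) := (algebraMap (FractionRing S) Ω).charZero
  have : Algebra.FormallyEtale S (FractionRing S) :=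
    Algebra.FormallyEtale.of_isLocalization (nonZeroDivisors S)
  have : Algebra.FormallyEtale (FractionRing S) Ω :=
    Algebra.FormallyEtale.of_isSeparable (FractionRing S) Ω
  have : Algebra.FormallyEtale S Ω := Algebra.FormallyEtale.comp S (FractionRing S) Ω
  let e := KaehlerDifferential.tensorKaehlerEquivOfFormallyEtale ℂ S Ω
  let φ : Ω ⊗[S] Ω[S⁄ℂ] →ₗ[Ω] Ω := d.liftKaehlerDifferential.liftBaseChange Ω
  refine ⟨(φ ∘ₗ e.symm.toLinearMap).compDer (KaehlerDifferential.D ℂ Ω), fun x => ?_⟩
  change φ (e.symm (KaehlerDifferential.D ℂ Ω (algebraMap S Ω x))) = d x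
  rw [KaehlerDifferential.tensorKaehlerEquivOfFormallyEtale_symm_D_algebraMap]
  simp [φ]

theorem exists_const_of_forall_der {z : Ω} (hz : ∀ D : Derivation ℂ Ω Ω, D z = 0) :
    ∃ c : ℂ, z = algebraMap ℂ Ω c := by
  classical
  by_cases ha : IsAlgebraic ℂ z
  · have hi : IsIntegral ℂ z := ha.isIntegral
    have hd : (minpoly ℂ z).degree = 1 :=
      IsAlgClosed.degree_eq_one_of_irreducible ℂ (minpoly.irreducible hi)
    obtain ⟨c, hc⟩ := (minpoly.degree_eq_one_iff).1 hd
    exact ⟨c, hc.symm⟩
  · exfalso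
    have hind : AlgebraicIndependent ℂ ((↑) : ({z} : Set Ω) → Ω) := by
      rw [algebraicIndependent_unique_type_iff]
      exact ha
    obtain ⟨s, hzs, hs⟩ := exists_isTranscendenceBasis_superset hind
    let ev : MvPolynomial s ℂ →ₐ[ℂ] Ω := MvPolynomial.aeval ((↑) : s → Ω)
    let : Algebra (MvPolynomial s ℂ) Ω := ev.toRingHom.toAlgebra
    have : IsScalarTower ℂ (MvPolynomial s ℂ) Ω :=
      IsScalarTower.of_algebraMap_eq fun c => (ev.commutes c).symm
    have hinj : Function.Injective (algebraMap (MvPolynomial s ℂ) Ω) := hs.1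
    have halg : Algebra.IsAlgebraic (MvPolynomial s ℂ) Ω := by
      refine ⟨fun w => ?_⟩
      have h1 := hs.isAlgebraic.isAlgebraic w
      refine der_alg_trans (hs.1.aevalEquiv.symm : _ →+* _) hs.1.aevalEquiv.symm.injective
        (fun x => ?_) h1
      obtain ⟨y, rfl⟩ := hs.1.aevalEquiv.surjective x
      simp only [RingHom.coe_coe, AlgEquiv.symm_apply_apply]
      exact (hs.1.algebraMap_aevalEquiv y).symm
    obtain ⟨D, hD⟩ := der_ext_aux hinj halg
      (MvPolynomial.mkDerivation ℂ (fun _ : s => (1 : Ω)))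
    have h1 := hD (MvPolynomial.X ⟨z, hzs rfl⟩)
    rw [MvPolynomial.mkDerivation_X] at h1
    have h2 : algebraMap (MvPolynomial s ℂ) Ω (MvPolynomial.X ⟨z, hzs rfl⟩) = z :=
      MvPolynomial.aeval_X _ _
    rw [h2, hz D] at h1
    exact zero_ne_one h1

theorem der_aeval {ι : Type} [Fintype ι] [DecidableEq ι] (D : Derivation ℂ Ω Ω) (x : ι → Ω)
    (p : MvPolynomial ι ℂ) :
    D (MvPolynomial.aeval x p) =
      ∑ j, MvPolynomial.aeval x (MvPolynomial.pderiv j p) * D (x j) := by
  induction p using MvPolynomial.induction_on with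
  | C c => simp
  | add p q hp hq => simp [hp, hq, add_mul, Finset.sum_add_distrib]
  | mul_X p i hp =>
    simp only [map_mul, MvPolynomial.aeval_X, Derivation.leibniz, smul_eq_mul, hp, map_add,
      add_mul, Finset.sum_add_distrib, Finset.mul_sum, MvPolynomial.pderiv_X, Pi.single_apply,
      apply_ite (MvPolynomial.aeval x), map_one, map_zero, mul_ite, mul_one, mul_zero, ite_mul,
      zero_mul, Finset.sum_ite_eq, Finset.mem_univ, if_true, mul_assoc]

end Pool.Agent.P.MP_2a8a61_ag.H
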