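import Pool.Agent.P.MP_2a8a61_ag.H.Node

/-! A form with exactly one singular point, which is a node. -/

set_option linter.unusedSectionVars false

namespace Pool.Agent.P.MP_2a8a61_ag.H

open MvPolynomial
open Matrix hiding map

variable {ι : Type} [DecidableEq ι] [Fintype ι]

lemma pderiv_sum_erase (i j : ι) (c : ι → ℂ) (m : ℕ) :
    pderiv j (∑ l ∈ Finset.univ.erase i, C (c l) * X l ^ (m + 1) : MvPolynomial ι ℂ) =
      if j = i then 0 else C (c j) * (((m + 1 : ℕ) : MvPolynomial ι ℂ) * X j ^ m) := by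
  rw [map_sum]
  have h : ∀ l, pderiv j (C (c l) * X l ^ (m + 1) : MvPolynomial ι ℂ) =
      if j = l then C (c l) * (((m + 1 : ℕ) : MvPolynomial ι ℂ) * X l ^ m) else 0 := fun l => by
    rw [pderiv_C_mul, pderiv_pow, pderiv_X, Pi.single_apply]
    by_cases h : j = l
    · subst h; simp
    · rw [if_neg h, if_neg (Ne.symm h)]; simp
  simp only [h, Finset.sum_ite_eq, Finset.mem_erase, Finset.mem_univ, and_true, ne_eq, ite_not]

lemma sum_sq_ne_zero (e : ι → ℕ) (he : Function.Injective e) (T : Finset ι) (hT : T.Nonempty)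
    (b : ι → ℂ) (s : ℝ) (hs : 0 < s) (hb : ∀ j ∈ T, ‖b j‖ = 2 ^ e j * s) :
    ∑ j ∈ T, b j ^ 2 ≠ 0 := by
  intro h
  obtain ⟨j0, hj0, hmax⟩ := T.exists_max_image e hT
  rw [← Finset.add_sum_erase _ _ hj0, add_eq_zero_iff_eq_neg] at h
  have h1 : ∀ j ∈ T, ‖b j ^ 2‖ = 4 ^ e j * s ^ 2 := fun j hj => by
    rw [norm_pow, hb j hj, mul_pow, ← pow_mul, mul_comm (e j), pow_mul]
    norm_num
  have h2 : ‖b j0 ^ 2‖ ≤ ∑ j ∈ T.erase j0, 4 ^ e j * s ^ 2 := by
    rw [h, norm_neg]
    refine (norm_sum_le _ _).trans (le_of_eq (Finset.sum_congr rfl fun j hj => ?_))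
    exact h1 j (Finset.mem_of_mem_erase hj)
  have h3 : ∑ j ∈ T.erase j0, 4 ^ e j < 4 ^ e j0 := by
    rw [← Finset.sum_image (f := fun k => 4 ^ k) (g := e) fun x _ y _ h => he h]
    refine Nat.geomSum_lt (by norm_num) fun k hk => ?_
    obtain ⟨j, hj, rfl⟩ := Finset.mem_image.1 hk
    exact lt_of_le_of_ne (hmax j (Finset.mem_of_mem_erase hj))
      fun h => (Finset.mem_erase.1 hj).1 (he h)
  have h4 : (∑ j ∈ T.erase j0, (4 : ℝ) ^ e j) < 4 ^ e j0 := by exact_mod_cast h3
  rw [h1 j0 hj0, ← Finset.sum_mul] at h2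
  exact absurd (le_of_mul_le_mul_right h2 (pow_pos hs 2)) (not_le.2 h4)

theorem exists_node {d : ℕ} (hd : 3 ≤ d) (i : ι) :
    ∃ f : MvPolynomial ι ℂ, f.IsHomogeneous d ∧ Node f (Pi.single i 1) := by
  obtain ⟨k, rfl⟩ : ∃ k, d = k + 3 := ⟨d - 3, by omega⟩
  let e : ι → ℕ := fun j => (Fintype.equivFin ι j : ℕ)
  have he : Function.Injective e := fun x y h => (Fintype.equivFin ι).injective (Fin.ext h)
  let c : ι → ℂ := fun j => -2 / ((k + 3 : ℕ) * (2 ^ e j) ^ (k + 1))
  have hk : ((k + 3 : ℕ) : ℂ) ≠ 0 := Nat.cast_ne_zero.2 (by omega)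
  set f : MvPolynomial ι ℂ := X i ^ (k + 1) * (∑ l ∈ Finset.univ.erase i, C 1 * X l ^ (1 + 1)) +
    ∑ l ∈ Finset.univ.erase i, C (c l) * X l ^ (k + 2 + 1) with hf
  have hj : ∀ j, j ≠ i → pderiv j f =
      X i ^ (k + 1) * (2 * X j) +
        C (c j) * (((k + 3 : ℕ) : MvPolynomial ι ℂ) * X j ^ (k + 2)) := fun j hj => by
    rw [hf, map_add, pderiv_mul, pderiv_sum_erase, pderiv_sum_erase, if_neg hj, if_neg hj,
      pderiv_pow, pderiv_X_of_ne hj.symm]
    simp only [mul_zero, zero_mul, zero_add, C_1, one_mul, pow_one]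
    rfl
  have hi : pderiv i f =
      (((k + 1 : ℕ) : MvPolynomial ι ℂ) * X i ^ k) * ∑ l ∈ Finset.univ.erase i, X l ^ 2 := by
    rw [hf, map_add, pderiv_mul, pderiv_sum_erase, pderiv_sum_erase, if_pos rfl, if_pos rfl,
      pderiv_pow, pderiv_X_self]
    simp
  refine ⟨f, IsHomogeneous.add ?_ ?_, ?_, fun j => ?_, fun b hb => ?_, fun v hv => ?_⟩
  · exact (isHomogeneous_X_pow i (k + 1)).mul
      (IsHomogeneous.sum _ _ _ fun l _ => (isHomogeneous_X_pow l 2).C_mul _)
  · exact IsHomogeneous.sum _ _ _ fun l _ => (isHomogeneous_X_pow l (k + 3)).C_mul _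
  · intro h
    simpa using congrFun h i
  · by_cases h : j = i
    · rw [h, hi, map_mul, map_sum, Finset.sum_eq_zero, mul_zero]
      intro l hl
      simp [(Finset.mem_erase.1 hl).1]
    · simp [hj j h, h]
  · have hb' : ∀ j, j ≠ i → b j ≠ 0 → b j ^ (k + 1) = (2 ^ e j * b i) ^ (k + 1) := by
      intro j h h0
      have h1 := hb j
      rw [hj j h] at h1
      simp only [map_add, map_mul, map_pow, eval_X, eval_C, map_natCast, map_ofNat, c] at h1
      have h2 : (2 : ℂ) ^ e j ≠ 0 := pow_ne_zero _ two_ne_zero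
      field_simp at h1
      refine mul_left_cancel₀ (mul_ne_zero h0 two_ne_zero) ?_
      rw [mul_pow]
      linear_combination -h1
    suffices h : ∀ j, j ≠ i → b j = 0 by
      refine ⟨b i, funext fun j => ?_⟩
      by_cases hji : j = i
      · simp [hji]
      · simp [hji, h j hji]
    by_cases h0 : b i = 0
    · intro j h
      by_contra h1
      have := hb' j h h1
      rw [h0, mul_zero, zero_pow (Nat.succ_ne_zero k)] at this
      exact h1 (eq_zero_of_pow_eq_zero this)
    · by_contra hcon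
      push Not at hcon
      obtain ⟨j, hj1, hj2⟩ := hcon
      refine sum_sq_ne_zero e he ((Finset.univ.erase i).filter fun l => b l ≠ 0)
        ⟨j, by simp [hj1, hj2]⟩ b ‖b i‖ (norm_pos_iff.2 h0) (fun l hl => ?_) ?_
      · obtain ⟨h1, h2⟩ := Finset.mem_filter.1 hl
        have := congrArg norm (hb' l (Finset.mem_erase.1 h1).1 h2)
        rw [norm_pow, norm_pow, pow_left_inj₀ (norm_nonneg _) (norm_nonneg _)
          (Nat.succ_ne_zero k), norm_mul, norm_pow] at this
        simpa using this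
      · rw [Finset.sum_filter_of_ne (p := fun l => b l ≠ 0) fun l _ h h' => h (by rw [h']; simp)]
        have h1 := hb i
        rw [hi] at h1
        simp only [map_mul, map_pow, eval_X, map_natCast, map_sum] at h1
        exact (mul_eq_zero.1 h1).resolve_left
          (mul_ne_zero (Nat.cast_ne_zero.2 (Nat.succ_ne_zero k)) (pow_ne_zero _ h0))
  · refine ⟨v i, funext fun j => ?_⟩
    by_cases hji : j = i
    · simp [hji]
    · have h1 := congrFun hv j
      rw [← HA_symm] at h1
      have h2 : ∀ l, (HA f (Pi.single i 1))ᵀ j l = if l = j then 2 else 0 := fun l => by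
        simp only [HA, transpose_apply, of_apply, hj j hji]
        by_cases h : l = j
        · subst h
          simp [hji]
        · by_cases h' : i = l
          · subst h'
            simp [hji, pderiv_X, Ne.symm hji]
          · simp [hji, pderiv_X, h, Ne.symm h, h']
      simp only [mulVec, dotProduct, h2, ite_mul, zero_mul, Finset.sum_ite_eq', Finset.mem_univ,
        if_true, Pi.zero_apply] at h1
      simpa [hji] using h1

end Pool.Agent.P.MP_2a8a61_ag.H
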