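import Pool.Agent.P.MP_2a8a61_ag.H.Bez

/-! The numerator functional in the critical degree, and graded tools. -/

set_option linter.unusedSectionVars false

namespace Pool.Agent.P.MP_2a8a61_ag.H

open MvPolynomial
open Matrix hiding map

variable {A S : Type*} [CommRing A] [CommRing S] {ι : Type*} [DecidableEq ι] [Fintype ι]

lemma hom_ind {e : ℕ} {P : MvPolynomial ι S → Prop} (h0 : P 0)
    (hadd : ∀ a b, P a → P b → P (a + b))
    (hm : ∀ (m : ι →₀ ℕ) (c : S), m.degree = e → P (monomial m c))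
    {u : MvPolynomial ι S} (hu : u.IsHomogeneous e) : P u := by
  rw [u.as_sum]
  refine Finset.sum_induction _ _ hadd h0 fun m hm' => hm _ _ ?_
  by_contra h
  exact mem_support_iff.1 hm' (hu.coeff_eq_zero h)

/-- The functional with given values on the monomials of degree `ρ` and zero on the others. -/
noncomputable def Nf (ρ : ℕ) (v : (ι →₀ ℕ) → S) : MvPolynomial ι S →ₗ[S] S :=
  (basisMonomials ι S).constr S fun m => if m.degree = ρ then v m else 0

lemma Nf_monomial (ρ : ℕ) (v : (ι →₀ ℕ) → S) (m : ι →₀ ℕ) (c : S) :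
    Nf ρ v (monomial m c) = c * if m.degree = ρ then v m else 0 := by
  have h : (monomial m 1 : MvPolynomial ι S) = basisMonomials ι S m := by
    rw [coe_basisMonomials]
  rw [lin_monomial, h, Nf, Module.Basis.constr_basis]

lemma Nf_C_mul (ρ : ℕ) (v : (ι →₀ ℕ) → S) (c : S) (u : MvPolynomial ι S) :
    Nf ρ v (C c * u) = c * Nf ρ v u := by
  rw [← smul_eq_C_mul, map_smul, smul_eq_mul]

lemma Nf_map (ρ : ℕ) (v : (ι →₀ ℕ) → A) (χ : A →+* S) (u : MvPolynomial ι A) :
    Nf ρ (fun m => χ (v m)) (map χ u) = χ (Nf ρ v u) := by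
  induction u using MvPolynomial.induction_on' with
  | monomial m c =>
    rw [map_monomial, Nf_monomial, Nf_monomial, map_mul, apply_ite χ, map_zero]
  | add p q hp hq => rw [map_add, map_add, hp, hq, map_add, map_add]

lemma Nf_of_ne {ρ e : ℕ} (v : (ι →₀ ℕ) → S) {u : MvPolynomial ι S} (hu : u.IsHomogeneous e)
    (he : e ≠ ρ) : Nf ρ v u = 0 := by
  refine hom_ind (P := fun u => Nf ρ v u = 0) (map_zero _) (fun a b ha hb => ?_)
    (fun m c hm => ?_) hu
  · rw [map_add, ha, hb, add_zero]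
  · rw [Nf_monomial, if_neg (hm ▸ he), mul_zero]

lemma Nf_scale (ρ : ℕ) {v v' : (ι →₀ ℕ) → S} {a b : S}
    (h : ∀ m : ι →₀ ℕ, m.degree = ρ → a * v m = b * v' m) (u : MvPolynomial ι S) :
    a * Nf ρ v u = b * Nf ρ v' u := by
  induction u using MvPolynomial.induction_on' with
  | monomial m c =>
    rw [Nf_monomial, Nf_monomial]
    split_ifs with hm
    · linear_combination c * h m hm
    · simp
  | add p q hp hq => rw [map_add, map_add, mul_add, mul_add, hp, hq]

lemma prod_X_pow (k : ι → ℕ) :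
    (∏ i, X i ^ k i : MvPolynomial ι S) = monomial (Finsupp.equivFunOnFinite.symm k) 1 := by
  rw [monomial_eq, C_1, one_mul, Finsupp.prod_fintype _ _ (by simp)]
  simp

lemma degree_of_mem {ρ : ℕ} {k : ι → ℕ} (hk : k ∈ Finset.piAntidiag Finset.univ ρ) :
    (Finsupp.equivFunOnFinite.symm k).degree = ρ := by
  rw [Finsupp.degree_eq_sum, ← (Finset.mem_piAntidiag.1 hk).1]
  simp

/-- The form whose value at `w` is the value of the functional at the power of a linear form. -/
noncomputable def psi (ρ : ℕ) (v : (ι →₀ ℕ) → S) : MvPolynomial ι S :=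
  ∑ k ∈ Finset.piAntidiag Finset.univ ρ,
    monomial (Finsupp.equivFunOnFinite.symm k)
      ((Nat.multinomial Finset.univ k : S) * v (Finsupp.equivFunOnFinite.symm k))

lemma psi_isHomogeneous (ρ : ℕ) (v : (ι →₀ ℕ) → S) : (psi ρ v).IsHomogeneous ρ :=
  IsHomogeneous.sum _ _ _ fun _ hk => isHomogeneous_monomial _ (degree_of_mem hk)

lemma map_psi (ρ : ℕ) (v : (ι →₀ ℕ) → A) (χ : A →+* S) :
    map χ (psi ρ v) = psi ρ fun m => χ (v m) := by
  simp only [psi, map_sum, map_monomial, map_mul, map_natCast]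

lemma eval_psi (ρ : ℕ) (v : (ι →₀ ℕ) → S) (w : ι → S) :
    eval w (psi ρ v) = Nf ρ v ((∑ i, C (w i) * X i) ^ ρ) := by
  rw [Finset.sum_pow_eq_sum_piAntidiag, psi, map_sum, map_sum]
  refine Finset.sum_congr rfl fun k hk => ?_
  have e : (Nat.multinomial Finset.univ k : MvPolynomial ι S) * ∏ i, (C (w i) * X i) ^ k i =
      C ((Nat.multinomial Finset.univ k : S) * ∏ i, w i ^ k i) *
        monomial (Finsupp.equivFunOnFinite.symm k) 1 := by
    rw [← prod_X_pow]
    simp only [map_mul, map_prod, map_pow, map_natCast, mul_pow, Finset.prod_mul_distrib]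
    ring
  rw [e, Nf_C_mul, Nf_monomial, if_pos (degree_of_mem hk), eval_monomial,
    Finsupp.prod_fintype _ _ (by simp)]
  simp only [Finsupp.equivFunOnFinite_symm_apply_apply]
  ring

lemma coeff_psi (ρ : ℕ) (v : (ι →₀ ℕ) → S) {m : ι →₀ ℕ} (hm : m.degree = ρ) :
    coeff m (psi ρ v) = (Nat.multinomial Finset.univ m : S) * v m := by
  rw [psi, coeff_sum, Finset.sum_eq_single (m : ι → ℕ)]
  · simp
  · intro k _ hk
    rw [coeff_monomial, if_neg]
    intro h
    exact hk (by rw [← h]; rfl)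
  · intro h
    exact absurd (Finset.mem_piAntidiag.2 ⟨by rw [← hm, Finsupp.degree_eq_sum], by simp⟩) h

lemma eq_zero_of_psi {ρ : ℕ} {v : (ι →₀ ℕ) → ℂ} (h : psi ρ v = 0) {m : ι →₀ ℕ}
    (hm : m.degree = ρ) : v m = 0 := by
  have := coeff_psi ρ v hm
  rw [h, coeff_zero] at this
  exact (mul_eq_zero.1 this.symm).resolve_left
    (Nat.cast_ne_zero.2 (Nat.multinomial_pos _ _).ne')

/-- The ideal of the system given by a matrix. -/
noncomputable def MI (U : Matrix ι ι (MvPolynomial ι S)) : Ideal (MvPolynomial ι S) :=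
  Ideal.span (Set.range fun i => (U *ᵥ X) i)

lemma mem_MI (U : Matrix ι ι (MvPolynomial ι S)) (i : ι) : (U *ᵥ X) i ∈ MI U :=
  Ideal.subset_span ⟨i, rfl⟩

lemma map_mulVec_X (φ : A →+* S) (U : Matrix ι ι (MvPolynomial ι A)) (i : ι) :
    ((map φ).mapMatrix U *ᵥ X) i = map φ ((U *ᵥ X) i) := by
  simp [mulVec, dotProduct]

lemma map_MI (φ : A →+* S) (U : Matrix ι ι (MvPolynomial ι A)) :
    (MI U).map (map φ) = MI ((map φ).mapMatrix U) := by
  rw [MI, MI, Ideal.map_span, ← Set.range_comp]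
  congr 2
  funext i
  exact (map_mulVec_X φ U i).symm

lemma comp_mem_MI {U : Matrix ι ι (MvPolynomial ι S)} {r : ℕ}
    (hU : ∀ i j, (U i j).IsHomogeneous r) {u : MvPolynomial ι S} (hu : u ∈ MI U) (e : ℕ) :
    homogeneousComponent e u ∈ MI U :=
  comp_mem_span (by rintro _ ⟨i, rfl⟩; exact ⟨_, isHomogeneous_mulVec hU i⟩) hu e

lemma det_isHomogeneous {U : Matrix ι ι (MvPolynomial ι S)} {r : ℕ}
    (hU : ∀ i j, (U i j).IsHomogeneous r) : U.det.IsHomogeneous (Fintype.card ι * r) := by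
  simpa using isHomogeneous_det U (fun _ => r) hU

/-- `v` lists the numerators of the residues of the monomials, with denominator `P`. -/
structure Good (U : Matrix ι ι (MvPolynomial ι S)) (ρ : ℕ) (P : S) (v : (ι →₀ ℕ) → S) :
    Prop where
  n1 : ∀ m : ι →₀ ℕ, m.degree = ρ → C P * monomial m 1 - C (v m) * U.det ∈ MI U
  n2 : ∀ i m, Nf ρ v (monomial m 1 * (U *ᵥ X) i) = 0
  n3 : Nf ρ v U.det = P

lemma Good.map {U : Matrix ι ι (MvPolynomial ι A)} {ρ : ℕ} {P : A} {v : (ι →₀ ℕ) → A}
    (h : Good U ρ P v) (φ : A →+* S) :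
    Good ((map φ).mapMatrix U) ρ (φ P) fun m => φ (v m) where
  n1 m hm := by
    have := Ideal.mem_map_of_mem (MvPolynomial.map φ) (h.n1 m hm)
    rwa [map_MI, map_sub, map_mul, map_mul, map_C, map_C, map_monomial, map_one,
      RingHom.map_det] at this
  n2 i m := by
    have := Nf_map ρ v φ (monomial m 1 * (U *ᵥ X) i)
    rwa [h.n2, map_zero, map_mul, map_monomial, map_one, ← map_mulVec_X] at this
  n3 := by rw [← RingHom.map_det, Nf_map, h.n3]

lemma sub_mem_of_n1 {U : Matrix ι ι (MvPolynomial ι S)} {ρ : ℕ} {P : S} {v : (ι →₀ ℕ) → S}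
    (h : ∀ m : ι →₀ ℕ, m.degree = ρ → C P * monomial m 1 - C (v m) * U.det ∈ MI U)
    {u : MvPolynomial ι S} (hu : u.IsHomogeneous ρ) :
    C P * u - C (Nf ρ v u) * U.det ∈ MI U := by
  refine hom_ind (P := fun u => C P * u - C (Nf ρ v u) * U.det ∈ MI U) (by simp)
    (fun a b ha hb => ?_) (fun m c hm => ?_) hu
  · have := add_mem ha hb
    rw [map_add, map_add]
    convert this using 1
    ring
  · have := Ideal.mul_mem_left _ (C c) (h m hm)
    rw [Nf_monomial, if_pos hm, map_mul]
    convert this using 1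
    rw [← mul_one c, ← C_mul_monomial, mul_one]
    ring

lemma kill_of_n2 {U : Matrix ι ι (MvPolynomial ι S)} (l : MvPolynomial ι S →ₗ[S] S)
    (h : ∀ i m, l (monomial m 1 * (U *ᵥ X) i) = 0) {u : MvPolynomial ι S} (hu : u ∈ MI U) :
    l u = 0 := by
  obtain ⟨b, rfl⟩ := Ideal.mem_span_range_iff_exists_fun.1 hu
  rw [map_sum]
  refine Finset.sum_eq_zero fun i _ => ?_
  generalize b i = q
  induction q using MvPolynomial.induction_on' with
  | monomial m c =>
    rw [← mul_one c, ← C_mul_monomial, mul_assoc, ← smul_eq_C_mul, map_smul, h, smul_zero]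
  | add p q hp hq => rw [add_mul, map_add, hp, hq, add_zero]

lemma Good.kill {U : Matrix ι ι (MvPolynomial ι S)} {ρ : ℕ} {P : S} {v : (ι →₀ ℕ) → S}
    (h : Good U ρ P v) {u : MvPolynomial ι S} (hu : u ∈ MI U) : Nf ρ v u = 0 :=
  kill_of_n2 _ h.n2 hu

lemma exists_good {U : Matrix ι ι (MvPolynomial ι A)} (D : ShiftData X fun i => (U *ᵥ X) i)
    {r : ℕ} (hU : ∀ i j, (U i j).IsHomogeneous r) {P : A} {N : ℕ}
    (hP : ∀ i, C P * X i ^ (N + 1) ∈ MI U) : ∃ v, Good U (Fintype.card ι * r) P v := by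
  have h : ∀ m : ι →₀ ℕ, ∃ a : A, m.degree = Fintype.card ι * r →
      C P * monomial m 1 - C a * U.det ∈ MI U := by
    intro m
    by_cases hm : m.degree = Fintype.card ι * r
    · obtain ⟨a, ha⟩ := exists_sub_mul_det_mem D hU N (C P * monomial m 1)
        ((isHomogeneous_monomial _ hm).C_mul _) fun i => by
          rw [mul_right_comm]
          exact Ideal.mul_mem_right _ _ (hP i)
      exact ⟨a, fun _ => ha⟩
    · exact ⟨0, fun h => absurd h hm⟩
  choose v hv using h
  refine ⟨v, hv, fun i m => ?_, ?_⟩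
  · have hh : (monomial m 1 * (U *ᵥ X) i).IsHomogeneous (m.degree + (r + 1)) :=
      (isHomogeneous_monomial _ rfl).mul (isHomogeneous_mulVec hU i)
    by_cases he : m.degree + (r + 1) = Fintype.card ι * r
    · rw [he] at hh
      refine eq_zero_of_mul_det_mem D _ ?_
      have h1 : C P * (monomial m 1 * (U *ᵥ X) i) ∈ MI U :=
        Ideal.mul_mem_left _ _ (Ideal.mul_mem_left _ _ (mem_MI U i))
      have := sub_mem h1 (sub_mem_of_n1 hv hh)
      rwa [sub_sub_cancel] at this
    · exact Nf_of_ne v hh he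
  · refine (sub_eq_zero.1 (eq_zero_of_mul_det_mem D _ ?_)).symm
    rw [map_sub, sub_mul]
    exact sub_mem_of_n1 hv (det_isHomogeneous hU)

lemma map_comp (χ : A →+* S) (e : ℕ) (u : MvPolynomial ι A) :
    map χ (homogeneousComponent e u) = homogeneousComponent e (map χ u) := by
  ext m
  rw [coeff_map, coeff_homogeneousComponent, coeff_homogeneousComponent, coeff_map, apply_ite χ,
    map_zero]

/-- Nakayama in a fixed degree. -/
lemma nak (χ : A →+* S) (W : Submodule A (MvPolynomial ι A)) (e : ℕ)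
    (hW : ∀ w ∈ W, homogeneousComponent e w ∈ W)
    (h : ∀ u : MvPolynomial ι A, u.IsHomogeneous e → ∃ w ∈ W, map χ w = map χ u) :
    ∃ s : A, χ s = 1 ∧ ∀ u : MvPolynomial ι A, u.IsHomogeneous e → C s * u ∈ W := by
  have hle : homogeneousSubmodule ι A e ≤ W ⊔ RingHom.ker χ • homogeneousSubmodule ι A e := by
    intro g hg
    obtain ⟨w, hw, hw'⟩ := h g hg
    have e1 : g = homogeneousComponent e w + (g - homogeneousComponent e w) := by ring
    rw [e1]
    refine Submodule.add_mem_sup (hW w hw) ?_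
    set u := g - homogeneousComponent e w with hu
    have hu1 : u.IsHomogeneous e := IsHomogeneous.sub hg (homogeneousComponent_isHomogeneous _ _)
    have hu2 : map χ u = 0 := by
      rw [hu, map_sub, map_comp, hw', ← map_comp, homogeneousComponent_eq_self hg, sub_self]
    rw [u.as_sum]
    refine Submodule.sum_mem _ fun m hm => ?_
    have : monomial m (coeff m u) = coeff m u • monomial m (1 : A) := by
      rw [smul_monomial, smul_eq_mul, mul_one]
    rw [this]
    refine Submodule.smul_mem_smul ?_ (isHomogeneous_monomial _ ?_)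
    · rw [RingHom.mem_ker, ← coeff_map, hu2, coeff_zero]
    · by_contra hcon
      exact mem_support_iff.1 hm (hu1.coeff_eq_zero hcon)
  obtain ⟨s, hs1, hs⟩ := Submodule.exists_sub_one_mem_and_smul_le_of_fg_of_le_sup
    (homogeneousSubmodule_fg ι A e) le_rfl hle
  refine ⟨s, ?_, fun u hu => ?_⟩
  · have : χ (s - 1) = 0 := hs1
    rwa [map_sub, map_one, sub_eq_zero] at this
  · rw [← smul_eq_C_mul]
    exact hs (Submodule.smul_mem_pointwise_smul _ _ _ hu)

lemma hom_repr {κ : Type*} [Fintype κ] {F : κ → MvPolynomial ι S} {r e : ℕ}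
    (hF : ∀ l, (F l).IsHomogeneous r) {u : MvPolynomial ι S} (hu : u.IsHomogeneous (e + r))
    (h : u ∈ Ideal.span (Set.range F)) :
    ∃ a : κ → MvPolynomial ι S, (∀ l, (a l).IsHomogeneous e) ∧ u = ∑ l, a l * F l := by
  obtain ⟨b, hb⟩ := Ideal.mem_span_range_iff_exists_fun.1 h
  refine ⟨fun l => homogeneousComponent e (b l), fun l => homogeneousComponent_isHomogeneous _ _,
    ?_⟩
  rw [← homogeneousComponent_eq_self hu, ← hb, map_sum]
  exact Finset.sum_congr rfl fun l _ => comp_mul_of_isHomogeneous _ _ (hF l) e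

lemma hom_scale (χ : A →+* S) (c : S) (x : ι → S) {e : ℕ} {u : MvPolynomial ι A}
    (hu : u.IsHomogeneous e) :
    eval₂Hom χ (fun j => c * x j) u = c ^ e * eval₂Hom χ x u := by
  refine hom_ind (P := fun u => eval₂Hom χ (fun j => c * x j) u = c ^ e * eval₂Hom χ x u)
    (by simp) (fun a b ha hb => ?_) (fun m a hm => ?_) hu
  · rw [map_add, map_add, ha, hb, mul_add]
  · rw [eval₂Hom_monomial, eval₂Hom_monomial, Finsupp.prod_fintype _ _ (by simp),
      Finsupp.prod_fintype _ _ (by simp), ← hm, Finsupp.degree_eq_sum]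
    simp only [mul_pow, Finset.prod_mul_distrib, Finset.prod_pow_eq_pow_sum]
    ring

lemma eval_smul_hom (c : S) (x : ι → S) {e : ℕ} {u : MvPolynomial ι S}
    (hu : u.IsHomogeneous e) : eval (c • x) u = c ^ e * eval x u :=
  hom_scale (RingHom.id S) c x hu

lemma exists_comp_ne_zero {x : ι → S} {u : MvPolynomial ι S} (h : eval x u ≠ 0) :
    ∃ e, eval x (homogeneousComponent e u) ≠ 0 := by
  by_contra hcon
  push Not at hcon
  apply h
  rw [← sum_homogeneousComponent u, map_sum]
  exact Finset.sum_eq_zero fun e _ => hcon e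

lemma deg_mem {K : Ideal (MvPolynomial ι ℂ)}
    (hK : ∀ z : ι → ℂ, (∀ q ∈ K, eval z q = 0) → z = 0) :
    ∃ D, ∀ e, D ≤ e → ∀ g : MvPolynomial ι ℂ, g.IsHomogeneous e → g ∈ K := by
  have h : ∀ i, ∃ N, (X i : MvPolynomial ι ℂ) ^ N ∈ K := by
    intro i
    have h : (X i : MvPolynomial ι ℂ) ∈ vanishingIdeal ℂ (zeroLocus ℂ K) := by
      intro z hz
      have : z = 0 := hK z fun q hq => by simpa using hz q hq
      simp [this]
    rw [vanishingIdeal_zeroLocus_eq_radical] at h
    exact h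
  choose N hN using h
  refine ⟨∑ i, N i + 1, fun e he g hg => ?_⟩
  refine hom_ind (P := fun g => g ∈ K) (zero_mem _) (fun a b => add_mem) (fun m c hm => ?_) hg
  have hex : ∃ i, N i ≤ m i := by
    by_contra hcon
    push Not at hcon
    have := Finset.sum_le_sum (s := Finset.univ) (f := fun i => m i) (g := N)
      fun i _ => (hcon i).le
    rw [Finsupp.degree_eq_sum] at hm
    omega
  obtain ⟨i, hi⟩ := hex
  have : monomial m c = monomial (m - Finsupp.single i (N i)) c * X i ^ N i := by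
    rw [X_pow_eq_monomial, monomial_mul, mul_one, tsub_add_cancel_of_le]
    exact Finsupp.single_le_iff.2 hi
  rw [this]
  exact Ideal.mul_mem_left _ _ (hN i)

end Pool.Agent.P.MP_2a8a61_ag.H
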