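import Pool.Agent.P.MP_2a8a61_ag.H.Uni

/-! Forms with one node: the gradient ideal in high degree, and an example. -/

set_option linter.unusedSectionVars false

namespace Pool.Agent.P.MP_2a8a61_ag.H

open MvPolynomial
open Matrix hiding map

variable {ι : Type} [DecidableEq ι] [Fintype ι]

/-- The Hessian matrix at a point. -/
noncomputable def HA (f : MvPolynomial ι ℂ) (a : ι → ℂ) : Matrix ι ι ℂ :=
  Matrix.of fun j k => eval a (pderiv j (pderiv k f))

lemma pderiv_comm' (f : MvPolynomial ι ℂ) (j k : ι) :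
    pderiv j (pderiv k f) = pderiv k (pderiv j f) := by
  induction f using MvPolynomial.induction_on with
  | C c => simp
  | add p q hp hq => simp [hp, hq]
  | mul_X p i hp =>
    simp only [Derivation.leibniz, pderiv_X, smul_eq_mul, map_add, hp, Pi.single_apply]
    split_ifs <;> simp <;> ring

lemma HA_symm (f : MvPolynomial ι ℂ) (a : ι → ℂ) : (HA f a)ᵀ = HA f a := by
  ext j k
  simp [HA, pderiv_comm' f j k]

lemma HA_mulVec_self {d : ℕ} {f : MvPolynomial ι ℂ} (hf : f.IsHomogeneous d) {a : ι → ℂ}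
    (ha : ∀ j, eval a (pderiv j f) = 0) : HA f a *ᵥ a = 0 := by
  funext j
  have h := congrArg (eval a) (HM_mulVec hf j)
  rw [map_mul, ha, mul_zero] at h
  rw [← HA_symm, Pi.zero_apply, ← h]
  simp [HA, HM, mulVec, dotProduct]

/-- `a` is the only singular point of `f`, and it is a node. -/
structure Node (f : MvPolynomial ι ℂ) (a : ι → ℂ) : Prop where
  ne : a ≠ 0
  sing : ∀ j, eval a (pderiv j f) = 0
  uniq : ∀ b : ι → ℂ, (∀ j, eval b (pderiv j f) = 0) → ∃ c : ℂ, b = c • a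
  ker : ∀ v, HA f a *ᵥ v = 0 → ∃ c : ℂ, v = c • a

lemma finrank_ker_eq_one_iff {H : Matrix ι ι ℂ} {a : ι → ℂ} (ha : a ≠ 0) (h0 : H *ᵥ a = 0) :
    (∀ v, H *ᵥ v = 0 → ∃ c : ℂ, v = c • a) ↔ H.rank + 1 = Fintype.card ι := by
  have h1 := LinearMap.finrank_range_add_finrank_ker H.mulVecLin
  rw [Module.finrank_fintype_fun_eq_card] at h1
  have h2 : Submodule.span ℂ {a} ≤ LinearMap.ker H.mulVecLin := by
    rw [Submodule.span_singleton_le_iff_mem]
    exact h0
  have h3 := finrank_span_singleton (K := ℂ) ha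
  rw [Matrix.rank]
  constructor
  · intro h
    have : LinearMap.ker H.mulVecLin = Submodule.span ℂ {a} := le_antisymm (fun v hv => by
      obtain ⟨c, rfl⟩ := h v hv
      exact Submodule.smul_mem _ _ (Submodule.mem_span_singleton_self a)) h2
    rw [this, h3] at h1
    exact h1
  · intro h v hv
    have := Submodule.eq_of_le_of_finrank_eq h2 (by omega)
    have hv' : v ∈ LinearMap.ker H.mulVecLin := hv
    rw [← this] at hv'
    obtain ⟨c, hc⟩ := Submodule.mem_span_singleton.1 hv'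
    exact ⟨c, hc.symm⟩

lemma exists_mulVec_eq {H : Matrix ι ι ℂ} (hH : Hᵀ = H) {a : ι → ℂ} (ha : a ≠ 0)
    (h0 : H *ᵥ a = 0) (hk : ∀ v, H *ᵥ v = 0 → ∃ c : ℂ, v = c • a) {w : ι → ℂ}
    (hw : a ⬝ᵥ w = 0) : ∃ y, H *ᵥ y = w := by
  have h1 := (finrank_ker_eq_one_iff ha h0).1 hk
  let φ : (ι → ℂ) →ₗ[ℂ] ℂ := dotProductBilin ℂ ℂ a
  have h2 : LinearMap.range H.mulVecLin ≤ LinearMap.ker φ := by
    rintro _ ⟨y, rfl⟩
    change a ⬝ᵥ (H *ᵥ y) = 0
    rw [dotProduct_mulVec, ← mulVec_transpose, hH, h0, zero_dotProduct]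
  have h3 : LinearMap.ker φ ≠ ⊤ := by
    intro h
    obtain ⟨i, hi⟩ := Function.ne_iff.1 ha
    have : Pi.single i (1 : ℂ) ∈ LinearMap.ker φ := h ▸ Submodule.mem_top
    have e : a ⬝ᵥ Pi.single i 1 = 0 := this
    rw [dotProduct_single_one] at e
    exact hi e
  have h4 := Submodule.finrank_lt h3
  rw [Module.finrank_fintype_fun_eq_card] at h4
  have h5 := Submodule.eq_of_le_of_finrank_le h2 (by rw [Matrix.rank] at h1; omega)
  exact (h5 ▸ (hw : w ∈ LinearMap.ker φ) : w ∈ LinearMap.range H.mulVecLin)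

/-- The linear forms cutting out the line through `a`. -/
noncomputable def ell (a : ι → ℂ) (i j : ι) : MvPolynomial ι ℂ :=
  C (a i) * X j - C (a j) * X i

lemma ell_isHomogeneous (a : ι → ℂ) (i j : ι) : (ell a i j).IsHomogeneous 1 :=
  (isHomogeneous_C_mul_X _ _).sub (isHomogeneous_C_mul_X _ _)

lemma sub_mem_ell (a : ι → ℂ) (i : ι) {e : ℕ} {g : MvPolynomial ι ℂ} (hg : g.IsHomogeneous e) :
    C (a i ^ e) * g - C (eval a g) * X i ^ e ∈ Ideal.span (Set.range (ell a i)) := by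
  set I := Ideal.span (Set.range (ell a i)) with hI
  set π := Ideal.Quotient.mk I with hπ
  have h1 : ∀ p, eval₂Hom (π.comp C) (fun j => π (X j)) p = π p := fun p => by
    have : eval₂Hom (π.comp C) (fun j => π (X j)) = π := by
      refine MvPolynomial.ringHom_ext (fun r => ?_) fun j => ?_ <;> simp
    rw [this]
  have h2 : ∀ p, eval₂Hom (π.comp C) (fun j => π (C (a j))) p = π (C (eval a p)) := fun p => by
    have : eval₂Hom (π.comp C) (fun j => π (C (a j))) = π.comp (C.comp (eval a)) := by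
      refine MvPolynomial.ringHom_ext (fun r => ?_) fun j => ?_ <;> simp
    rw [this]; rfl
  have h3 : (fun j => π (C (a i)) * π (X j)) = fun j => π (X i) * π (C (a j)) := by
    funext j
    rw [← map_mul, ← map_mul, Ideal.Quotient.eq, mul_comm (X i)]
    exact Ideal.subset_span ⟨j, rfl⟩
  have h4 := hom_scale (π.comp C) (π (C (a i))) (fun j => π (X j)) hg
  rw [h3, hom_scale _ _ _ hg, h1, h2] at h4
  rw [← Ideal.Quotient.eq, map_mul, map_mul, map_pow, map_pow, map_pow, ← h4, mul_comm]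

lemma lin_sub_mem (a : ι → ℂ) (i : ι) {g : MvPolynomial ι ℂ}
    (hg : g ∈ Ideal.span (Set.range (ell a i))) :
    g - ∑ j, C (eval a (pderiv j g)) * X j ∈
      RingHom.ker (eval a) • Ideal.span (Set.range (ell a i)) := by
  obtain ⟨b, rfl⟩ := Ideal.mem_span_range_iff_exists_fun.1 hg
  have h0 : ∀ l, eval a (ell a i l) = 0 := fun l => by simp [ell, mul_comm]
  have h1 : ∀ l, ∑ j, C (eval a (pderiv j (ell a i l))) * X j = ell a i l := fun l => by
    simp [ell, pderiv_X, Pi.single_apply, apply_ite (eval a), sub_mul, apply_ite C,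
      Finset.sum_sub_distrib]
  have h2 : ∑ j, C (eval a (pderiv j (∑ l, b l * ell a i l))) * X j =
      ∑ l, C (eval a (b l)) * ell a i l := by
    simp only [map_sum, Derivation.leibniz, smul_eq_mul, map_add, map_mul, h0, zero_mul, add_zero,
      Finset.sum_mul]
    rw [Finset.sum_comm]
    refine Finset.sum_congr rfl fun l _ => ?_
    conv_rhs => rw [← h1 l, Finset.mul_sum]
    exact Finset.sum_congr rfl fun j _ => by rw [mul_assoc]
  rw [h2, ← Finset.sum_sub_distrib]
  refine Submodule.sum_mem _ fun l _ => ?_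
  rw [← sub_mul]
  exact Submodule.smul_mem_smul (by simp [RingHom.mem_ker]) (Ideal.subset_span ⟨l, rfl⟩)

lemma Node.local {d : ℕ} {f : MvPolynomial ι ℂ} (hf : f.IsHomogeneous d) {a : ι → ℂ}
    (h : Node f a) {i : ι} (hi : a i ≠ 0) :
    ∃ u : MvPolynomial ι ℂ, eval a u = 1 ∧ ∀ l, u * ell a i l ∈ Jac f := by
  set I := Ideal.span (Set.range (ell a i)) with hI
  have hJI : Jac f ≤ I := by
    rw [Jac, Ideal.span_le]
    rintro _ ⟨j, rfl⟩
    have := sub_mem_ell a i (hf.pderiv (i := j))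
    rw [h.sing, map_zero, zero_mul, sub_zero] at this
    exact (Ideal.unit_mul_mem_iff_mem _ ((pow_ne_zero _ hi).isUnit.map C)).1 this
  have hle : I ≤ Jac f ⊔ RingHom.ker (eval a) • I := by
    rw [hI, Ideal.span_le]
    rintro _ ⟨l, rfl⟩
    obtain ⟨y, hy⟩ := exists_mulVec_eq (HA_symm f a) h.ne (HA_mulVec_self hf h.sing) h.ker
      (w := Pi.single l (a i) - Pi.single i (a l)) (by simp [mul_comm])
    have hg : ∑ k, C (y k) * pderiv k f ∈ Jac f :=
      Ideal.sum_mem _ fun k _ => Ideal.mul_mem_left _ _ (Ideal.subset_span ⟨k, rfl⟩)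
    have h1 := lin_sub_mem a i (hJI hg)
    have h2 : ∑ j, C (eval a (pderiv j (∑ k, C (y k) * pderiv k f))) * X j = ell a i l := by
      have : ∀ j, eval a (pderiv j (∑ k, C (y k) * pderiv k f)) =
          (Pi.single l (a i) - Pi.single i (a l) : ι → ℂ) j := fun j => by
        rw [← hy]
        simp [HA, mulVec, dotProduct, mul_comm]
      simp only [this]
      simp [ell, Pi.single_apply, sub_mul, apply_ite C, Finset.sum_sub_distrib]
    rw [h2] at h1
    have := Submodule.add_mem_sup hg (neg_mem h1)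
    simpa using this
  obtain ⟨u, hu1, hu⟩ := Submodule.exists_sub_one_mem_and_smul_le_of_fg_of_le_sup
    (N' := I) (Submodule.fg_span (Set.finite_range _)) le_rfl hle
  refine ⟨u, ?_, fun l => hu (Submodule.smul_mem_pointwise_smul _ _ _
    (Ideal.subset_span ⟨l, rfl⟩))⟩
  have : eval a (u - 1) = 0 := hu1
  rwa [map_sub, map_one, sub_eq_zero] at this

lemma Node.high {d : ℕ} {f : MvPolynomial ι ℂ} (hf : f.IsHomogeneous d) {a : ι → ℂ}
    (h : Node f a) {i : ι} (hi : a i ≠ 0) :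
    ∃ D, ∀ e, D ≤ e → ∀ g : MvPolynomial ι ℂ, g.IsHomogeneous e →
      ∃ c : ℂ, g - C c * X i ^ e ∈ Jac f := by
  obtain ⟨u, hu1, hu⟩ := h.local hf hi
  let K : Ideal (MvPolynomial ι ℂ) :=
    { carrier := {q | ∀ l, q * ell a i l ∈ Jac f}
      add_mem' := fun hp hq l => by rw [add_mul]; exact add_mem (hp l) (hq l)
      zero_mem' := fun l => by rw [zero_mul]; exact zero_mem _
      smul_mem' := fun c q hq l => by
        rw [smul_eq_mul, mul_assoc]; exact Ideal.mul_mem_left _ _ (hq l) }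
  obtain ⟨D, hD⟩ := deg_mem (K := K) fun z hz => by
    obtain ⟨c, rfl⟩ := h.uniq z fun j => hz _ fun l =>
      Ideal.mul_mem_right _ _ (Ideal.subset_span ⟨j, rfl⟩)
    obtain ⟨e, he⟩ := exists_comp_ne_zero (x := a) (u := u) (by rw [hu1]; exact one_ne_zero)
    have h1 := hz (homogeneousComponent e u) fun l => by
      rw [← comp_mul_of_isHomogeneous _ _ (ell_isHomogeneous a i l)]
      exact comp_mem_Jac' hf (hu l) _
    rw [eval_smul_hom c a (homogeneousComponent_isHomogeneous _ _)] at h1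
    rw [eq_zero_of_pow_eq_zero ((mul_eq_zero.1 h1).resolve_right he), zero_smul]
  refine ⟨D + 1, fun e he g hg => ⟨eval a g / a i ^ e, ?_⟩⟩
  obtain ⟨e, rfl⟩ : ∃ e', e = e' + 1 := ⟨e - 1, by omega⟩
  obtain ⟨b, hb, hb'⟩ := hom_repr (ell_isHomogeneous a i)
    ((hg.C_mul _).sub ((isHomogeneous_X_pow i _).C_mul _)) (sub_mem_ell a i hg)
  refine (Ideal.unit_mul_mem_iff_mem _ ((pow_ne_zero (e + 1) hi).isUnit.map C)).1 ?_
  rw [mul_sub, ← mul_assoc, ← map_mul, mul_div_cancel₀ _ (pow_ne_zero _ hi), hb']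
  exact Ideal.sum_mem _ fun l _ => hD e (by omega) _ (hb l) l

end Pool.Agent.P.MP_2a8a61_ag.H
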