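import Pool.Agent.P.MP_2a8a61_ag.H.Arc
import Pool.Agent.P.MP_2a8a61_ag.H.Der

/-! Pencils of forms. -/

set_option linter.unusedSectionVars false

namespace Pool.Agent.P.MP_2a8a61_ag.H

open MvPolynomial Topology
open Matrix hiding map
open Filter hiding map

variable {ι : Type} [DecidableEq ι] [Fintype ι] {d : ℕ} {f g : MvPolynomial ι ℂ}

/-- The pencil spanned by two forms. -/
noncomputable def pen (f g : MvPolynomial ι ℂ) : MvPolynomial ι (Polynomial ℂ) :=
  map Polynomial.C f + C Polynomial.X * map Polynomial.C g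

lemma map_pen (f g : MvPolynomial ι ℂ) (t : ℂ) :
    map (Polynomial.evalRingHom t) (pen f g) = f + C t * g := by
  rw [pen, map_add, map_mul, map_ev_map_C, map_ev_map_C, map_C, Polynomial.coe_evalRingHom,
    Polynomial.eval_X]

lemma map_pen_zero (f g : MvPolynomial ι ℂ) : map ev0 (pen f g) = f := by
  rw [map_pen, C_0, zero_mul, add_zero]

lemma pen_isHomogeneous (hf : f.IsHomogeneous d) (hg : g.IsHomogeneous d) :
    (pen f g).IsHomogeneous d :=
  (hf.map _).add ((hg.map _).C_mul _)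

lemma pderiv_pen (f g : MvPolynomial ι ℂ) (j : ι) :
    pderiv j (pen f g) =
      map Polynomial.C (pderiv j f) + C Polynomial.X * map Polynomial.C (pderiv j g) := by
  rw [pen, map_add, pderiv_C_mul, pderiv_map, pderiv_map]

lemma self_mem_Jac {S : Type*} [CommRing S] [Algebra ℂ S] (hd : d ≠ 0) {F : MvPolynomial ι S}
    (hF : F.IsHomogeneous d) : F ∈ Jac F := by
  refine (Ideal.unit_mul_mem_iff_mem _
    (isUnit_natCast_of_ne_zero (S := MvPolynomial ι S) hd)).1 ?_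
  rw [← nsmul_eq_mul, ← hF.sum_X_mul_pderiv]
  exact Ideal.sum_mem _ fun i _ => Ideal.mul_mem_left _ _ (Ideal.subset_span ⟨i, rfl⟩)

/-- The ideal of the numerators of the derivatives of the quotient. -/
noncomputable def QI (f g : MvPolynomial ι ℂ) : Ideal (MvPolynomial ι ℂ) :=
  Ideal.span (Set.range fun i => g * pderiv i f - f * pderiv i g)

/-- Local membership of a power of `f`. -/
def LP (f g : MvPolynomial ι ℂ) (k : ℕ) (a : ι → ℂ) : Prop :=
  ∃ u, eval a u ≠ 0 ∧ u * f ^ k ∈ QI f g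

lemma expo_of_lp (hd : d ≠ 0) (hf : f.IsHomogeneous d) (hg : g.IsHomogeneous d)
    (hfg : ∀ a : ι → ℂ, a ≠ 0 → (∀ j, eval a (pderiv j f) = 0) → eval a g ≠ 0) {k : ℕ}
    (h : ∀ a : ι → ℂ, a ≠ 0 → (∀ j, eval a (pderiv j f) = 0) → LP f g k a) :
    Expo (pen f g) k := by
  intro a ha hs
  rw [map_pen_zero] at hs
  obtain ⟨u, hu, hu'⟩ := h a ha hs
  have hF := self_mem_Jac hd (pen_isHomogeneous hf hg)
  have h1 : (QI f g).map (map Polynomial.C) ≤ Jac (pen f g) := by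
    rw [QI, Ideal.map_span, Ideal.span_le]
    rintro _ ⟨_, ⟨j, rfl⟩, rfl⟩
    have : map Polynomial.C (g * pderiv j f - f * pderiv j g) =
        map Polynomial.C g * pderiv j (pen f g) - map Polynomial.C (pderiv j g) * pen f g := by
      rw [pderiv_pen, pen, map_sub, map_mul, map_mul]
      ring
    change map Polynomial.C (g * pderiv j f - f * pderiv j g) ∈ Jac (pen f g)
    rw [this]
    exact sub_mem (Ideal.mul_mem_left _ _ (Ideal.subset_span ⟨j, rfl⟩))
      (Ideal.mul_mem_left _ _ hF)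
  have h2 := h1 (Ideal.mem_map_of_mem _ hu')
  refine ⟨map Polynomial.C (u * (-g) ^ k), ?_, ?_⟩
  · rw [map_ev_map_C, map_mul, map_pow, map_neg]
    exact mul_ne_zero hu (pow_ne_zero _ (neg_ne_zero.2 (hfg a ha hs)))
  · have h3 : Ideal.Quotient.mk (Jac (pen f g)) (map Polynomial.C f) =
        Ideal.Quotient.mk (Jac (pen f g)) (C Polynomial.X * -map Polynomial.C g) := by
      rw [Ideal.Quotient.eq]
      convert hF using 1
      rw [pen]
      ring
    rw [← Ideal.Quotient.eq_zero_iff_mem] at h2 ⊢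
    simp only [map_mul, map_pow, map_neg] at h2 h3 ⊢
    rw [← h2, h3]
    ring

lemma lp_of_expo (hd : d ≠ 0) (hf : f.IsHomogeneous d) {k : ℕ} (h : Expo (pen f g) k)
    {a : ι → ℂ} (ha : a ≠ 0) (hs : ∀ j, eval a (pderiv j f) = 0) (hga : eval a g ≠ 0) :
    LP f g k a := by
  obtain ⟨u, hu, hu'⟩ := h a ha (by rwa [map_pen_zero])
  have hfa : eval a f = 0 := eval_eq_zero_of_mem_Jac hs (self_mem_Jac hd hf)
  let O := Localization.Away g
  let al : MvPolynomial ι ℂ →+* O := algebraMap _ _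
  let γ : O := IsLocalization.Away.invSelf g
  have hγ : al g * γ = 1 := IsLocalization.Away.mul_invSelf g
  let ψ : MvPolynomial ι (Polynomial ℂ) →+* O :=
    eval₂Hom (Polynomial.eval₂RingHom (al.comp C) (-al f * γ)) fun j => al (X j)
  have hψ1 : ∀ p, ψ (map Polynomial.C p) = al p := fun p => by
    have : ψ.comp (map Polynomial.C) = al := by
      refine MvPolynomial.ringHom_ext (fun r => ?_) fun j => ?_ <;> simp [ψ]
    exact congrArg (fun φ => φ p) this
  have hψ2 : ψ (C Polynomial.X) = -al f * γ := by simp [ψ]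
  let ev : O →+* ℂ := IsLocalization.Away.lift g (Ne.isUnit hga)
  have hev : ∀ p, ev (al p) = eval a p := fun p => IsLocalization.Away.lift_eq g _ p
  have hevψ : ev.comp ψ = (eval a).comp (map ev0) := by
    refine MvPolynomial.ringHom_ext' (Polynomial.ringHom_ext (fun r => ?_) ?_) fun j => ?_
    · simp [ψ, hev]
    · simp [hψ2, hev, hfa]
    · simp [ψ, hev]
  have h1 : (Jac (pen f g)).map ψ ≤ (QI f g).map al := by
    rw [Jac, Ideal.map_span, Ideal.span_le]
    rintro _ ⟨_, ⟨j, rfl⟩, rfl⟩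
    have : ψ (pderiv j (pen f g)) = γ * al (g * pderiv j f - f * pderiv j g) := by
      rw [pderiv_pen, map_add, map_mul, hψ1, hψ1, hψ2, map_sub, map_mul, map_mul]
      linear_combination (-al (pderiv j f)) * hγ
    change ψ (pderiv j (pen f g)) ∈ (QI f g).map al
    rw [this]
    exact Ideal.mul_mem_left _ _ (Ideal.mem_map_of_mem _ (Ideal.subset_span ⟨j, rfl⟩))
  have h2 := h1 (Ideal.mem_map_of_mem _ hu')
  obtain ⟨n, r, hr⟩ := IsLocalization.Away.surj g (ψ u)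
  have hr' : ψ u * al g ^ n = al r := hr
  have h3 : al (r * f ^ k) ∈ (QI f g).map al := by
    have := Ideal.mul_mem_left _ (al g ^ n * (-al g) ^ k) h2
    convert this using 1
    have e : al f = -al g * (-al f * γ) := by linear_combination (-al f) * hγ
    rw [map_mul, map_mul, map_pow, map_pow, map_pow, hψ2, ← hr']
    conv_lhs => rw [e, mul_pow]
    ring
  obtain ⟨_, ⟨N, rfl⟩, hN⟩ := (IsLocalization.algebraMap_mem_map_algebraMap_iff
    (Submonoid.powers g) O _ _).1 h3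
  refine ⟨g ^ N * r, ?_, by rwa [mul_assoc]⟩
  have h4 : ev (ψ u) = eval a (map ev0 u) := congrArg (fun φ => φ u) hevψ
  rw [map_mul, map_pow, ← hev r, ← hr', map_mul, map_pow, hev, h4]
  exact mul_ne_zero (pow_ne_zero _ hga) (mul_ne_zero hu (pow_ne_zero _ hga))

lemma exists_lp {a : ι → ℂ} (hfa : eval a f = 0) (hga : eval a g ≠ 0) : ∃ k, LP f g k a := by
  by_contra hcon
  let T : Submonoid (MvPolynomial ι ℂ) :=
    { carrier := {x | ∃ u k, eval a u ≠ 0 ∧ x = u * f ^ k}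
      one_mem' := ⟨1, 0, by simp, by simp⟩
      mul_mem' := by
        rintro _ _ ⟨u, k, hu, rfl⟩ ⟨u', k', hu', rfl⟩
        exact ⟨u * u', k + k', by rw [map_mul]; exact mul_ne_zero hu hu', by ring⟩ }
  obtain ⟨P, hP, h1, h2⟩ := Ideal.exists_le_prime_disjoint (QI f g) T
    (Set.disjoint_left.2 fun x hx ⟨u, k, hu, e⟩ => hcon ⟨k, u, hu, e ▸ hx⟩)
  have h3 : ∀ p ∈ P, eval a p = 0 := fun p hp => by
    by_contra h
    exact Set.disjoint_left.1 h2 hp ⟨p, 0, h, by simp⟩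
  let Ω := FractionRing (MvPolynomial ι ℂ ⧸ P)
  let π : MvPolynomial ι ℂ →ₐ[ℂ] Ω :=
    (IsScalarTower.toAlgHom ℂ (MvPolynomial ι ℂ ⧸ P) Ω).comp (Ideal.Quotient.mkₐ ℂ P)
  have hπ : ∀ p, π p = 0 ↔ p ∈ P := fun p => by
    change algebraMap (MvPolynomial ι ℂ ⧸ P) Ω (Ideal.Quotient.mk P p) = 0 ↔ _
    rw [IsFractionRing.to_map_eq_zero_iff, Ideal.Quotient.eq_zero_iff_mem]
  have hπ' : ∀ p, aeval (fun j => π (X j)) p = π p := fun p => by
    conv_rhs => rw [aeval_unique π]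
    rfl
  have hg0 : π g ≠ 0 := fun h => hga (h3 g ((hπ g).1 h))
  obtain ⟨c, hc⟩ := exists_const_of_forall_der (z := π f / π g) fun D => by
    have h4 : ∀ p, D (π p) = ∑ j, π (pderiv j p) * D (π (X j)) := fun p => by
      simpa only [hπ'] using der_aeval D (fun j => π (X j)) p
    have h5 : π g * D (π f) - π f * D (π g) = 0 := by
      rw [h4 f, h4 g, Finset.mul_sum, Finset.mul_sum, ← Finset.sum_sub_distrib]
      refine Finset.sum_eq_zero fun j _ => ?_
      have := (hπ _).2 (h1 (Ideal.subset_span ⟨j, rfl⟩))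
      rw [map_sub, map_mul, map_mul] at this
      linear_combination (D (π (X j))) * this
    rw [Derivation.leibniz_div, smul_eq_mul, smul_eq_mul, smul_eq_mul, h5, mul_zero]
  have h6 : f - C c * g ∈ P := by
    rw [← hπ, map_sub, map_mul, sub_eq_zero, ← algebraMap_eq, AlgHom.commutes, ← hc,
      div_mul_cancel₀ _ hg0]
  have h7 := h3 _ h6
  rw [map_sub, hfa, zero_sub, neg_eq_zero, map_mul, eval_C] at h7
  rw [(mul_eq_zero.1 h7).resolve_right hga, C_0, zero_mul, sub_zero] at h6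
  exact Set.disjoint_left.1 h2 h6 ⟨1, 1, by simp, by simp⟩

lemma LP.mono {a : ι → ℂ} {k k' : ℕ} (h : LP f g k a) (hk : k ≤ k') : LP f g k' a := by
  obtain ⟨u, hu, hu'⟩ := h
  obtain ⟨j, rfl⟩ := Nat.exists_eq_add_of_le hk
  exact ⟨u, hu, by rw [pow_add, ← mul_assoc]; exact Ideal.mul_mem_right _ _ hu'⟩

lemma LP.smul (hf : f.IsHomogeneous d) (hg : g.IsHomogeneous d) {a : ι → ℂ} {k : ℕ}
    (h : LP f g k a) {c : ℂ} (hc : c ≠ 0) : LP f g k (c • a) := by
  obtain ⟨u, hu, hu'⟩ := h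
  obtain ⟨e, he⟩ := exists_comp_ne_zero hu
  refine ⟨homogeneousComponent e u, ?_, ?_⟩
  · rw [eval_smul_hom c a (homogeneousComponent_isHomogeneous _ _)]
    exact mul_ne_zero (pow_ne_zero _ hc) he
  · rw [← comp_mul_of_isHomogeneous _ _ (hf.pow k)]
    refine comp_mem_span ?_ hu' _
    rintro _ ⟨j, rfl⟩
    exact ⟨_, (hg.mul hf.pderiv).sub (hf.mul hg.pderiv)⟩

lemma finite_sing (hd : d ≠ 0) (hf : f.IsHomogeneous d) (hg : g.IsHomogeneous d)
    (hfg : ∀ a : ι → ℂ, a ≠ 0 → (∀ j, eval a (pderiv j f) = 0) → eval a g ≠ 0) :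
    {z : ι → ℂ | (∀ j, eval z (pderiv j f) = 0) ∧ eval z g = 1}.Finite := by
  obtain ⟨D, hD⟩ := deg_mem (K := Jac f ⊔ Ideal.span {g}) fun z hz => by
    by_contra h
    exact hfg z h (fun j => hz _ (Ideal.mem_sup_left (Ideal.subset_span ⟨j, rfl⟩)))
      (hz _ (Ideal.mem_sup_right (Ideal.mem_span_singleton_self _)))
  set K := Jac f ⊔ Ideal.span {g - 1} with hK
  let V : Submodule ℂ (MvPolynomial ι ℂ ⧸ K) := (Finset.range (D + d)).sup fun e =>
    (homogeneousSubmodule ι ℂ e).map (Ideal.Quotient.mkₐ ℂ K).toLinearMap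
  have hV : V.FG := Submodule.fg_finset_sup _ _ fun e _ => (homogeneousSubmodule_fg ι ℂ e).map _
  have h1 : ∀ e, ∀ p : MvPolynomial ι ℂ, p.IsHomogeneous e → Ideal.Quotient.mk K p ∈ V := by
    intro e
    induction e using Nat.strong_induction_on with
    | _ e ih =>
      intro p hp
      by_cases he : e < D + d
      · exact (Finset.le_sup (f := fun e => (homogeneousSubmodule ι ℂ e).map
          (Ideal.Quotient.mkₐ ℂ K).toLinearMap) (Finset.mem_range.2 he))
          (Submodule.mem_map_of_mem hp)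
      · obtain ⟨e, rfl⟩ : ∃ e', e = e' + d := ⟨e - d, by omega⟩
        obtain ⟨γ, hγ, y, hy, e1⟩ := Submodule.mem_sup.1 (hD _ (by omega) p hp)
        obtain ⟨q, rfl⟩ := Ideal.mem_span_singleton'.1 hy
        have e2 := congrArg (homogeneousComponent (e + d)) e1
        rw [map_add, comp_mul_of_isHomogeneous _ _ hg, homogeneousComponent_eq_self hp] at e2
        have e3 : Ideal.Quotient.mk K p = Ideal.Quotient.mk K (homogeneousComponent e q) := by
          rw [Ideal.Quotient.eq, ← e2, add_sub_assoc, ← mul_sub_one]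
          exact Submodule.add_mem_sup (comp_mem_Jac' hf hγ _)
            (Ideal.mul_mem_left _ _ (Ideal.mem_span_singleton_self _))
        rw [e3]
        exact ih e (by omega) _ (homogeneousComponent_isHomogeneous _ _)
  have : Module.Finite ℂ (MvPolynomial ι ℂ ⧸ K) := by
    refine ⟨(Submodule.eq_top_iff'.2 fun x => ?_ : V = ⊤) ▸ hV⟩
    obtain ⟨p, rfl⟩ := Ideal.Quotient.mk_surjective x
    rw [← sum_homogeneousComponent p, map_sum]
    exact Submodule.sum_mem _ fun e _ => h1 e _ (homogeneousComponent_isHomogeneous _ _)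
  have h2 : ∀ z : {z : ι → ℂ | (∀ j, eval z (pderiv j f) = 0) ∧ eval z g = 1},
      ∀ p ∈ K, aeval z.1 p = 0 := fun z => by
    have : K ≤ RingHom.ker (eval z.1) := sup_le (fun p hp => eval_eq_zero_of_mem_Jac z.2.1 hp) (by
      rw [Ideal.span_le, Set.singleton_subset_iff]
      change eval z.1 (g - 1) = 0
      rw [map_sub, z.2.2, map_one, sub_self])
    exact this
  refine Finite.of_injective (fun z => Ideal.Quotient.liftₐ K (aeval z.1) (h2 z))
    fun z z' h => Subtype.ext (funext fun j => ?_)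
  simpa using congrArg (fun φ => φ (Ideal.Quotient.mk K (X j))) h

lemma exists_repr (hd : d ≠ 0) (hf : f.IsHomogeneous d) (hg : g.IsHomogeneous d)
    (hfg : ∀ a : ι → ℂ, a ≠ 0 → (∀ j, eval a (pderiv j f) = 0) → eval a g ≠ 0) :
    ∃ s : Finset (ι → ℂ), (∀ z ∈ s, (∀ j, eval z (pderiv j f) = 0) ∧ eval z g = 1) ∧
      ∀ a : ι → ℂ, a ≠ 0 → (∀ j, eval a (pderiv j f) = 0) →
        ∃ z ∈ s, ∃ c : ℂ, c ≠ 0 ∧ a = c • z := by
  have hfin := finite_sing hd hf hg hfg
  refine ⟨hfin.toFinset, fun z hz => hfin.mem_toFinset.1 hz, fun a ha hs => ?_⟩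
  obtain ⟨c, hc⟩ := IsAlgClosed.exists_pow_nat_eq (eval a g) (Nat.pos_of_ne_zero hd)
  have hc0 : c ≠ 0 := fun h => hfg a ha hs (by rw [← hc, h, zero_pow hd])
  refine ⟨c⁻¹ • a, hfin.mem_toFinset.2 ⟨fun j => ?_, ?_⟩, c, hc0, by
    rw [smul_smul, mul_inv_cancel₀ hc0, one_smul]⟩
  · rw [eval_smul_hom _ _ hf.pderiv, hs, mul_zero]
  · rw [eval_smul_hom _ _ hg, ← hc, ← mul_pow, inv_mul_cancel₀ hc0, one_pow]

lemma exists_exponent (hd : d ≠ 0) (hf : f.IsHomogeneous d) (hg : g.IsHomogeneous d)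
    (hfg : ∀ a : ι → ℂ, a ≠ 0 → (∀ j, eval a (pderiv j f) = 0) → eval a g ≠ 0) :
    ∃ k, ∀ a : ι → ℂ, a ≠ 0 → (∀ j, eval a (pderiv j f) = 0) → LP f g k a := by
  obtain ⟨s, hs, hs'⟩ := exists_repr hd hf hg hfg
  have h : ∀ z : ι → ℂ, ∃ k, z ∈ s → LP f g k z := fun z => by
    by_cases hz : z ∈ s
    · obtain ⟨k, hk⟩ := exists_lp (f := f) (g := g)
        (eval_eq_zero_of_mem_Jac (hs z hz).1 (self_mem_Jac hd hf))
        (by rw [(hs z hz).2]; exact one_ne_zero)
      exact ⟨k, fun _ => hk⟩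
    · exact ⟨0, fun h => absurd h hz⟩
  choose k hk using h
  refine ⟨s.sup k, fun a ha hsa => ?_⟩
  obtain ⟨z, hz, c, hc, rfl⟩ := hs' a ha hsa
  exact ((hk z hz).mono (Finset.le_sup hz)).smul hf hg hc

lemma exists_hyperplane [Nonempty ι] (hd : d ≠ 0) (hf : f.IsHomogeneous d)
    (hg : g.IsHomogeneous d)
    (hfg : ∀ a : ι → ℂ, a ≠ 0 → (∀ j, eval a (pderiv j f) = 0) → eval a g ≠ 0) :
    ∃ (c : ι → ℂ) (k0 : ι), c k0 ≠ 0 ∧
      ∀ z : ι → ℂ, (∀ j, eval z (pderiv j f) = 0) → ∑ j, c j * z j = 0 → z = 0 := by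
  classical
  obtain ⟨s, hs, hs'⟩ := exists_repr hd hf hg hfg
  obtain ⟨k0⟩ := ‹Nonempty ι›
  have h1 : (X k0 * ∏ z ∈ s, ∑ j, X j * C (z j) : MvPolynomial ι ℂ) ≠ 0 := by
    refine mul_ne_zero (X_ne_zero _) (Finset.prod_ne_zero_iff.2 fun z hz h => ?_)
    have h2 : z = 0 := funext fun i => by
      simpa [Pi.single_apply] using congrArg (eval (Pi.single i 1)) h
    have h3 := eval_smul_hom (0 : ℂ) z hg
    rw [zero_smul, ← h2, (hs z hz).2, zero_pow hd, zero_mul] at h3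
    exact one_ne_zero h3
  obtain ⟨c, hc⟩ : ∃ c : ι → ℂ, eval c (X k0 * ∏ z ∈ s, ∑ j, X j * C (z j)) ≠ 0 := by
    by_contra hcon
    push Not at hcon
    exact h1 (MvPolynomial.funext fun c => by rw [hcon, map_zero])
  simp only [map_mul, map_prod, map_sum, eval_X, eval_C] at hc
  refine ⟨c, k0, left_ne_zero_of_mul hc, fun a hsa h => ?_⟩
  by_contra ha
  obtain ⟨z, hz, e, he, rfl⟩ := hs' a ha hsa
  refine Finset.prod_ne_zero_iff.1 (right_ne_zero_of_mul hc) z hz (mul_left_cancel₀ he ?_)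
  rw [mul_zero, ← h, Finset.mul_sum]
  exact Finset.sum_congr rfl fun j _ => by rw [Pi.smul_apply, smul_eq_mul]; ring

theorem pencil [Nonempty ι] (hd : 2 ≤ d) (hf : f.IsHomogeneous d) (hg : g.IsHomogeneous d)
    (hfg : ∀ a : ι → ℂ, a ≠ 0 → (∀ j, eval a (pderiv j f) = 0) → eval a g ≠ 0) :
    (∀ᶠ t in 𝓝[≠] (0 : ℂ), (¬ ∃ z : ι → ℂ, z ≠ 0 ∧ ∀ j, eval z (pderiv j (f + C t * g)) = 0) ∧
      ∀ w : ι → ℂ, ∃! c : ℂ, (∑ i, C (w i) * X i) ^ (Fintype.card ι * (d - 2)) -
        C c * (HM (f + C t * g)).det ∈ Jac (f + C t * g)) ∧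
    ∀ k, Bdd (pen f g) (Fintype.card ι * (d - 2)) k ↔
      ∀ a : ι → ℂ, a ≠ 0 → (∀ j, eval a (pderiv j f) = 0) → LP f g k a := by
  have hd0 : d ≠ 0 := by omega
  have hF := pen_isHomogeneous hf hg
  have hft : ∀ t : ℂ, (f + C t * g).IsHomogeneous d := fun t => hf.add (hg.C_mul t)
  obtain ⟨Δ, -, hΔ⟩ := exists_discriminant (ι := ι) hd
  have hvan : ∀ i : ι, VanAt d i Δ := fun i f hf z hz hs =>
    (hΔ f hf).2 ⟨z, fun h => hz (by rw [h]; rfl), hs⟩
  obtain ⟨v, hv⟩ := exists_good_univ hd hvan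
  let φ : Co ι d →+* Polynomial ℂ := eval₂Hom Polynomial.C fun m => coeff m.1 (pen f g)
  have hgood := hv.spec φ (map_UF d φ _ hF fun m => eval₂Hom_X' _ _ _)
  have hφ : ∀ t : ℂ, (φ Δ).eval t = evAt d (f + C t * g) Δ := fun t => by
    have : (Polynomial.evalRingHom t).comp φ = evAt d (f + C t * g) := by
      refine MvPolynomial.ringHom_ext (fun r => ?_) fun m => ?_
      · simp [φ, evAt]
      · rw [RingHom.comp_apply, eval₂Hom_X', ← coeff_map, map_pen, evAt, eval_X]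
    exact congrArg (fun χ => χ Δ) this
  obtain ⟨k, hk⟩ := exists_exponent hd0 hf hg hfg
  obtain ⟨D, hD⟩ := (expo_of_lp hd0 hf hg hfg hk).glob hF
  obtain ⟨s, hs, hs'⟩ := hD D le_rfl
  have hnd : ∀ᶠ t in 𝓝[≠] (0 : ℂ),
      ¬ ∃ z : ι → ℂ, z ≠ 0 ∧ ∀ j, eval z (pderiv j (f + C t * g)) = 0 := by
    have hs0 : s ≠ 0 := fun h => zero_ne_one (by rw [← hs, h, map_zero])
    filter_upwards [eventually_eval_ne_zero
      (mul_ne_zero hs0 (pow_ne_zero k Polynomial.X_ne_zero))] with t ht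
    rintro ⟨z, hz, hz'⟩
    obtain ⟨i, hi⟩ := Function.ne_iff.1 hz
    have h1 := map_mem_Jac (Polynomial.evalRingHom t) _ (hs' _ (isHomogeneous_X_pow i D))
    rw [map_pen] at h1
    have h2 := eval_eq_zero_of_mem_Jac hz' h1
    rw [map_mul, map_C, map_pow, map_X, map_mul, eval_C, map_pow, eval_X] at h2
    exact mul_ne_zero ht (pow_ne_zero _ hi) h2
  have hδ : φ Δ ≠ 0 := fun h => by
    obtain ⟨t, ht⟩ := hnd.exists
    exact ht ((hΔ _ (hft t)).1 (by rw [← hφ, h, Polynomial.eval_zero]))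
  refine ⟨?_, fun k => ⟨fun h a ha hsa =>
    lp_of_expo hd0 hf (expo_of_bdd hd hF hgood hδ h) ha hsa (hfg a ha hsa), fun h => ?_⟩⟩
  · filter_upwards [hnd] with t ht
    exact ⟨ht, (main_extension hd hvan).1 _ (hft t) fun h => ht ((hΔ _ (hft t)).1 h)⟩
  · obtain ⟨c, k0, hc0, hc⟩ := exists_hyperplane hd0 hf hg hfg
    exact bdd_of_expo hd hF hgood hδ (expo_of_lp hd0 hf hg hfg h) c k0 hc0
      (by rwa [map_pen_zero])

end Pool.Agent.P.MP_2a8a61_ag.H
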