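import Pool.Agent.P.MP_2a8a61_ag.Series
import Pool.Agent.P.MP_2a8a61_ag.H.Fun

/-! The universal gradient: residue numerators, and the prime ideal of inertia forms. -/

set_option linter.unusedSectionVars false

namespace Pool.Agent.P.MP_2a8a61_ag.H

open MvPolynomial
open Matrix hiding map

variable {ι : Type} [DecidableEq ι] [Fintype ι]

lemma MI_HM {S : Type*} [CommRing S] [Algebra ℂ S] {d : ℕ} (hd : 2 ≤ d) {F : MvPolynomial ι S}
    (hF : F.IsHomogeneous d) : MI (HM F) = Jac F := by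
  have hu : IsUnit ((d - 1 : ℕ) : MvPolynomial ι S) := isUnit_natCast_of_ne_zero (by omega)
  apply le_antisymm
  · rw [MI, Ideal.span_le]
    rintro _ ⟨i, rfl⟩
    simp only [HM_mulVec hF]
    exact Ideal.mul_mem_left _ _ (Ideal.subset_span ⟨i, rfl⟩)
  · rw [Jac, Ideal.span_le]
    rintro _ ⟨i, rfl⟩
    refine (Ideal.unit_mul_mem_iff_mem _ hu).1 ?_
    rw [← HM_mulVec hF]
    exact mem_MI _ i

lemma mapMatrix_HM {S T : Type*} [CommRing S] [CommRing T] (g : S →+* T)
    (F : MvPolynomial ι S) : (map g).mapMatrix (HM F) = HM (map g F) := by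
  ext1 i j
  simp [HM, pderiv_map]

lemma map_Jac {S T : Type*} [CommRing S] [CommRing T] (g : S →+* T) (F : MvPolynomial ι S) :
    (Jac F).map (map g) = Jac (map g F) := by
  rw [Jac, Jac, Ideal.map_span, ← Set.range_comp]
  congr 2
  funext i
  exact pderiv_map.symm

lemma comp_mem_Jac' {S : Type*} [CommRing S] {d : ℕ} {F : MvPolynomial ι S}
    (hF : F.IsHomogeneous d) {u : MvPolynomial ι S} (hu : u ∈ Jac F) (e : ℕ) :
    homogeneousComponent e u ∈ Jac F :=
  comp_mem_span (by rintro _ ⟨i, rfl⟩; exact ⟨_, hF.pderiv⟩) hu e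

lemma eval_eq_zero_of_mem_Jac {S : Type*} [CommRing S] {F : MvPolynomial ι S} {z : ι → S}
    (hz : ∀ j, eval z (pderiv j F) = 0) {u : MvPolynomial ι S} (hu : u ∈ Jac F) :
    eval z u = 0 := by
  have h2 : Jac F ≤ RingHom.ker (eval z) := by
    rw [Jac, Ideal.span_le]
    rintro _ ⟨j, rfl⟩
    exact hz j
  exact h2 hu

lemma exists_good_univ {d : ℕ} (hd : 2 ≤ d) {P : Co ι d} (hP : ∀ i, VanAt d i P) :
    ∃ v, Good (HM (UF ι d)) (Fintype.card ι * (d - 2)) P v := by
  choose N hN using fun i => inertia_of_vanAt hd (hP i) i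
  refine exists_good (shiftData hd) (HM_isHomogeneous (UF_isHomogeneous d))
    (N := Finset.univ.sup N) fun i => ?_
  rw [MI_HM hd (UF_isHomogeneous d)]
  have hle : N i ≤ Finset.univ.sup N := Finset.le_sup (Finset.mem_univ i)
  obtain ⟨k, hk⟩ := Nat.exists_eq_add_of_le hle
  have e : C P * X i ^ (Finset.univ.sup N + 1) = X i ^ (k + 1) * (X i ^ N i * C P) := by
    rw [hk]; ring
  rw [e]
  exact Ideal.mul_mem_left _ _ (hN i)

lemma Good.spec {S : Type*} [CommRing S] {d ρ : ℕ} {P : Co ι d} {v : (ι →₀ ℕ) → Co ι d}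
    (h : Good (HM (UF ι d)) ρ P v) (φ : Co ι d →+* S) {F : MvPolynomial ι S}
    (hF : MvPolynomial.map φ (UF ι d) = F) : Good (HM F) ρ (φ P) fun m => φ (v m) := by
  have := h.map φ
  rwa [mapMatrix_HM, hF] at this

/-- A functional which kills the gradient ideal and all high degrees bounds the exponent. -/
lemma bez_Jac {S : Type*} [CommRing S] [Algebra ℂ S] {d : ℕ} (hd : 2 ≤ d)
    {F : MvPolynomial ι S} (hF : F.IsHomogeneous d) (ρ : ℕ) (v : (ι →₀ ℕ) → S)
    (h : ∀ u ∈ Jac F, Nf ρ v u = 0) (i : ι) :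
    C (Nf ρ v (HM F).det) * X i ^ (ρ + 1) ∈ Jac F := by
  have := bez (HM F) (Nf ρ v)
    (fun i q => h _ (MI_HM hd hF ▸ Ideal.mul_mem_left _ _ (mem_MI _ i))) ρ
    (fun m hm => by rw [Nf_monomial, if_neg hm.ne', mul_zero])
    (fun i => ⟨_, isHomogeneous_mulVec (HM_isHomogeneous hF) i⟩) (Finsupp.single i (ρ + 1))
    (by simp)
  rw [← MI_HM hd hF, X_pow_eq_monomial]
  exact this

lemma Nf_eq_comp {S : Type*} [CommRing S] (μ : MvPolynomial ι S →ₗ[S] S) (ρ : ℕ)
    (u : MvPolynomial ι S) :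
    Nf ρ (fun m => μ (monomial m 1)) u = μ (homogeneousComponent ρ u) := by
  induction u using MvPolynomial.induction_on' with
  | monomial m c =>
    rw [Nf_monomial, homogeneousComponent_of_mem (isHomogeneous_monomial c rfl)]
    by_cases h : m.degree = ρ
    · rw [if_pos h, if_pos h.symm, lin_monomial μ m c]
    · rw [if_neg h, if_neg (Ne.symm h), mul_zero, map_zero]
  | add p q hp hq => rw [map_add, map_add, map_add, hp, hq]

/-- The Hessian of a singular form lies in its gradient ideal. -/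
lemma hess_mem_Jac {d : ℕ} (hd : 2 ≤ d) {f : MvPolynomial ι ℂ} (hf : f.IsHomogeneous d)
    {a : ι → ℂ} {i : ι} (hi : a i ≠ 0) (ha : ∀ j, eval a (pderiv j f) = 0) :
    (HM f).det ∈ Jac f := by
  by_contra hcon
  obtain ⟨μ, h1, h2⟩ := Submodule.exists_dual_map_eq_bot_of_notMem
    (p := (Jac f).restrictScalars ℂ) hcon inferInstance
  have h3 : ∀ u ∈ Jac f, μ u = 0 := fun u hu => by
    have : μ u ∈ ((Jac f).restrictScalars ℂ).map μ := Submodule.mem_map_of_mem hu
    rwa [h2, Submodule.mem_bot] at this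
  have h4 := bez_Jac hd hf (Fintype.card ι * (d - 2)) (fun m => μ (monomial m 1))
    (fun u hu => by rw [Nf_eq_comp]; exact h3 _ (comp_mem_Jac' hf hu _)) i
  rw [Nf_eq_comp, homogeneousComponent_eq_self (det_isHomogeneous (HM_isHomogeneous hf))] at h4
  have h5 := eval_eq_zero_of_mem_Jac ha h4
  rw [map_mul, eval_C, map_pow, eval_X] at h5
  exact mul_ne_zero h1 (pow_ne_zero _ hi) h5

/-- Restriction to the incidence variety. -/
noncomputable def tau (d : ℕ) (i : ι) : MvPolynomial ι (Co ι d) →+* Loc d i :=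
  eval₂Hom (sigmaMap d i (Loc d i)) fun j => algebraMap (MvPolynomial ι (Co ι d)) _ (X j)

lemma tau_X_ne_zero (d : ℕ) (i j : ι) : tau d i (X j) ≠ 0 := by
  rw [tau, eval₂Hom_X']
  intro h
  exact X_ne_zero j (IsLocalization.injective (Loc d i)
    (powers_le_nonZeroDivisors_of_noZeroDivisors (X_ne_zero i)) (h.trans (map_zero _).symm))

lemma tau_eq_zero_of_mem {d : ℕ} (hd : 2 ≤ d) (i : ι) {u : MvPolynomial ι (Co ι d)}
    (hu : u ∈ Jac (UF ι d)) : tau d i u = 0 := by
  have h1 : map (sigmaMap d i (Loc d i)) (UF ι d) = corrU d i (Loc d i) :=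
    map_UF d _ _ (corr_isHomogeneous (by omega) ((UF_isHomogeneous d).map _) _ _ _ _)
      fun m => by rw [sigmaMap, eval₂Hom_X']
  have h2 := map_mem_Jac (sigmaMap d i (Loc d i)) _ hu
  rw [h1] at h2
  have h3 := eval_eq_zero_of_mem_Jac (corrU_singular d i (Loc d i) hd) h2
  rwa [eval_map] at h3

lemma inertia_of_tau (d : ℕ) (i : ι) {u : MvPolynomial ι (Co ι d)} (h : tau d i u = 0) :
    ∃ N, X i ^ N * u ∈ Jac (UF ι d) := by
  set J := (Jac (UF ι d)).map (algebraMap (MvPolynomial ι (Co ι d)) (Loc d i)) with hJ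
  have h1 : (Ideal.Quotient.mk J).comp (tau d i) =
      (Ideal.Quotient.mk J).comp (algebraMap (MvPolynomial ι (Co ι d)) (Loc d i)) := by
    refine MvPolynomial.ringHom_ext' (MvPolynomial.ringHom_ext (fun r => ?_) fun m => ?_)
      fun j => ?_
    · simp only [RingHom.comp_apply, tau, eval₂Hom_C, sigmaMap]
    · simp only [tau, sigmaMap, RingHom.comp_apply, eval₂Hom_X', eval₂Hom_C, Ideal.Quotient.eq]
      have := coeff_corr_sub_mem d
        (map ((algebraMap (MvPolynomial ι (Co ι d)) (Loc d i)).comp C) (UF ι d))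
        (fun j => algebraMap (MvPolynomial ι (Co ι d)) (Loc d i) (X j))
        (IsLocalization.Away.invSelf (X i : MvPolynomial ι (Co ι d)))
        (algebraMap (MvPolynomial ι (Co ι d)) (Loc d i) (C (C ((d : ℂ)⁻¹)))) i J
        (fun j => by
          rw [pderiv_map, eval_map_algebraMap_C]
          exact Ideal.mem_map_of_mem _ (Ideal.subset_span ⟨j, rfl⟩)) m.1
      rwa [coeff_map, coeff_UF] at this
    · simp only [RingHom.comp_apply, tau, eval₂Hom_X']
  have h2 := congrArg (fun φ => φ u) h1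
  simp only [RingHom.comp_apply, h, map_zero] at h2
  have h3 := Ideal.Quotient.eq_zero_iff_mem.1 h2.symm
  obtain ⟨_, ⟨N, rfl⟩, hN⟩ := (IsLocalization.algebraMap_mem_map_algebraMap_iff
    (Submonoid.powers (X i : MvPolynomial ι (Co ι d))) (Loc d i) _ _).1 h3
  exact ⟨N, hN⟩

/-- Cancellation in the ideal of inertia forms. -/
lemma inert_of_mul {d : ℕ} (hd : 2 ≤ d) (i : ι) {x u : MvPolynomial ι (Co ι d)}
    (hx : tau d i x ≠ 0) (h : x * u ∈ Jac (UF ι d)) (j : ι) :
    ∃ N, X j ^ N * u ∈ Jac (UF ι d) := by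
  have : IsDomain (Loc d i) := Localization.Away.isDomain (X_ne_zero i)
  have : IsDomain (Loc d j) := Localization.Away.isDomain (X_ne_zero j)
  have h1 := tau_eq_zero_of_mem hd i h
  rw [map_mul] at h1
  obtain ⟨N, hN⟩ := inertia_of_tau d i ((mul_eq_zero.1 h1).resolve_left hx)
  have h2 := tau_eq_zero_of_mem hd j hN
  rw [map_mul, map_pow] at h2
  exact inertia_of_tau d j
    ((mul_eq_zero.1 h2).resolve_left (pow_ne_zero _ (tau_X_ne_zero d j i)))

lemma tau_C_ne_zero {d : ℕ} {f : MvPolynomial ι ℂ} (hf : f.IsHomogeneous d) {a : ι → ℂ} {i : ι}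
    (hi : a i ≠ 0) (ha : ∀ j, eval a (pderiv j f) = 0) {s : Co ι d} (hs : evAt d f s ≠ 0) :
    tau d i (C s) ≠ 0 := by
  intro h
  obtain ⟨N, hN⟩ := inertia_of_tau d i h
  exact hs (vanAt_of_inertia hN f hf a hi ha)

end Pool.Agent.P.MP_2a8a61_ag.H
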